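import Pool.Agent.H92.ALT.Sl4
import Pool.Agent.H31.W.H60.ALT.Arc
import Pool.Agent.H3.W.Bas

/-!
# The own path over the counted labels, and their slopes, for a record

`alb_rec`: as `alp_rec`, and `BlB` of the natural labels at all later chain windows.
-/

set_option autoImplicit false

namespace Pool.W.ALT

open Pool.ALT

open Finset Real MvPolynomial
open Pool.Agent.H49.Ent Pool.Agent.H32.Dense Pool.STK Pool.KA Pool.KSAT Pool.K2S Pool.PB Pool.S6C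
  Pool.GEN Pool.RCD Pool.LA91 Pool.OWN68 Pool.PKG
open Pool.UNJ (ceI)
open Pool.GRD (LbP)
open Pool.V0F (LbU her_extc)

/-- **The natural labels, the data for the own path, and the slopes at the later windows**, for the
chain windows of a record. -/
theorem alb_rec (r₀ S₀ : ℕ) (hS₀ : 1 ≤ S₀) : ∃ D₀ : ℕ, 1 ≤ D₀ ∧ ∀ D : ℕ, D₀ ≤ D →
    ∀ {b h δ lam rr gg R K₁ ℓ₀ X g₂ : ℝ}, 0 < b → 0 < h → h ≤ 1 → 0 < δ → 0 < lam → lam ≤ rr →
    0 < gg → 0 ≤ R → 0 ≤ K₁ → 0 < ℓ₀ → 0 < X → 0 < g₂ → 2 * X ≤ b * g₂ →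
    ∃ ℓ h₁ ε₁ e₁ : ℝ, 0 < ℓ ∧ ℓ ≤ ℓ₀ ∧ 0 < h₁ ∧ 0 < ε₁ ∧ 0 < e₁ ∧ ∀ η : ℝ, 0 < η → η ≤ h₁ →
    ∀ {S : Pool.PB.PCl (r₀ + 2)} {al : ℝ} {g₀ : ℝ → ℝ}
    {P : List (Fin (r₀ + 2)) × Fin (r₀ + 2) → ℝ → ℝ → ℝ}
    {θ : ℝ} {P₂ : ℕ → List (Fin (r₀ + 2)) × Fin (r₀ + 2) → ℝ → ℝ → ℝ} {θ₂ Eb e₂ : ℕ → ℝ}
    {c : ℕ → Fin (r₀ + 2)} {Pt : ℝ → ℝ → ℝ} {r : ℝ → ℝ} {hr K₀ g : ℝ} {L T : ℕ → ℝ → ℝ → ℝ}
    {Sl : ℕ → ℝ} {κ : ℕ → Pool.PKG.Kg} {G : Set ℝ} {N : ℕ} {A V : ℕ → ℝ} {S₂ N' : ℕ} {V' : ℕ → ℝ}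
    {K ε q t : ℝ}
    (_ : Pool.W.PKG.RecG S al g₀ P θ P₂ θ₂ Eb e₂ c Pt r hr K₀ g L T Sl κ G S₀ N A V S₂ N' V' K ε q t)
    (_ : Sl (r₀ + 1) = b) (_ : R + 1 ≤ K) (_ : ε ≤ ε₁) (_ : ∀ k < N', |V' k| ≤ K)
    (_ : ∀ k < N', ∃ rd : ℕ → ℝ, Pool.LA91.Chn S c 0 (r₀ + 1) (t + V' k * q) (t + V' k * q)
      (Pool.SWC.Lx L r₀ (t + V' k * q)) (fun l => L l (t + V' k * q) (t + V' k * q)) rd)
    {μ : ℝ} (_ : ∀ k < N', ∃ E rk : ℝ, 0 ≤ E ∧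
      E + L (r₀ + 1) (t + V' k * q) (t + V' k * q) + μ ≤ 1 ∧
      Pool.SWC.Lx L r₀ (t + V' k * q) + μ ≤ 1 ∧
      Pool.V0F.LbU S ((range (r₀ + 1)).image c) (c (r₀ + 1)) (t + V' k * q)
        (L (r₀ + 1) (t + V' k * q) (t + V' k * q)) rk E)
    {x e₀ ρ₀ π₀ φ e : ℝ} {Kf k₁ : ℕ} (_ : |t - x| ≤ K₁ * q) (_ : Kf ≤ D) (_ : 0 < e)
    (_ : e ≤ e₁) (_ : φ ≤ (1 - h) * b * Real.log 2)
    (_ : ∀ k ≥ k₁, Pool.ALT.AltAt S ((range (r₀ + 1)).image c) ((range r₀).image c) (c (r₀ + 1)) Kf e₀ ρ₀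
      π₀ (fun w => L (r₀ + 1) w w) x φ e k)
    (_ : (K₁ + R + 1) * q ≤ (1 / 2) ^ k₁) (_ : ρ₀ ≤ 1) (_ : 0 ≤ e₀) (_ : 0 < μ)
    (_ : (8 * b + 8 * rr) * q ≤ μ) {i j : ℕ} (_ : i < N') (_ : j < N') (_ : |V' i| ≤ R)
    (_ : |V' j| ≤ R) (_ : lam + gg ≤ b * (V' j - V' i)) (_ : rr + gg ≤ b * (R - V' i))
    (_ : μ ≤ L (r₀ + 1) (t + V' i * q) (t + V' i * q))
    (_ : e₀ + L (r₀ + 1) (t + V' j * q) (t + V' j * q) + μ ≤ 1)
    (_ : π₀ < L (r₀ + 1) (t + V' i * q) (t + V' i * q))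
    (_ : L (r₀ + 1) (t + V' i * q) (t + V' i * q) + L r₀ (t + V' i * q) (t + V' i * q) - π₀ < 1)
    (_ : L (r₀ + 1) (t + V' j * q) (t + V' j * q) + L r₀ (t + V' j * q) (t + V' j * q) - π₀ < 1),
    ∃ S' : Pool.PB.PCl (r₀ + 2), Pool.ALT.SubC S' S ∧
      Pool.W.PKG.RecG S' al g₀ P θ P₂ θ₂ Eb e₂ c Pt r hr K₀ g L T Sl κ G S₀ N A V S₂ N' V' K ε q t ∧
      ∃ (Ψ : Pool.ALT.Fml (r₀ + 2)) (w p₁ p₂ eN uN pN : ℝ), w ≤ t + V' i * q ∧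
      t + V' i * q - q / 2 ≤ w ∧ t - (R + 1) * q ≤ w ∧ t + V' i * q - 2 * ℓ * q ≤ w ∧
      w ≤ t + V' i * q - ℓ * q ∧ eN + L (r₀ + 1) (t + V' i * q) (t + V' i * q) + μ / 2 < 1 ∧
      uN + μ / 2 < 1 ∧
      L (r₀ + 1) (t + V' i * q) (t + V' i * q) - δ * lam * q / 8 ≤ pN ∧
      Pool.S6C.Bas S' (fun J F A => ∃ (V : Type) (z : Pool.GEN.PtT F → V) (z' : Pool.GEN.LnT F → V)
        (G : V → MvPolynomial (Option (Fin (r₀ + 2))) ℝ),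
        Pool.ALT.NzF Ψ c r₀ (c (r₀ + 1)) D D D w (t + V' i * q) p₁ p₂ eN uN pN J F A V z z' G) ∧
      Pool.ALT.NzO S' Ψ c r₀ (c (r₀ + 1)) D D D w (t + V' i * q) p₁ p₂ eN uN pN ∧
      (∀ n : ℝ, 1 - μ / 2 ≤ n → n ≤ 1 →
        Pool.ALT.AlpD S' Ψ c r₀ (c (r₀ + 1)) D w (t + V' i * q) (t + V' j * q)
          (L (r₀ + 1) (t + V' i * q) (t + V' i * q)) (lam * q) (rr * q) n h
          (δ * (lam * q) / 4) p₁ p₂ eN uN pN) ∧
      ∀ k < N', V' i + g₂ ≤ V' k → |V' k| ≤ R → V' k + g₂ ≤ R → X * q ≤ μ →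
        X * q ≤ L r₀ (t + V' k * q) (t + V' k * q) →
        e₀ + L (r₀ + 1) (t + V' k * q) (t + V' k * q) < 1 →
        L (r₀ + 1) (t + V' k * q) (t + V' k * q) + L r₀ (t + V' k * q) (t + V' k * q) +
          X * q ≤ 1 + π₀ →
        Pool.ALT.BlB S' c r₀ (c (r₀ + 1)) (t + V' i * q) (t + V' k * q) D D
          (L (r₀ + 1) (t + V' k * q) (t + V' k * q) - 2 * (η * q))
          (L r₀ (t + V' k * q) (t + V' k * q) - 2 * (η * q))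
          (L r₀ (t + V' k * q) (t + V' k * q) -
            L (r₀ + 1) (t + V' k * q) (t + V' k * q) + X * q)
          (Pool.ALT.NzF Ψ c r₀ (c (r₀ + 1)) D D D w (t + V' i * q) p₁ p₂ eN uN pN) := by
  classical
  obtain ⟨D₀, hD₀, halw⟩ := Pool.W.ALT.alw_rec r₀ S₀ hS₀
  refine ⟨D₀, hD₀, ?_⟩
  intro D hD b h δ lam rr gg R K₁ ℓ₀ X g₂ hb hh hh1 hδ hlam hrr hgg hR hK₁ hℓ₀ hX hg₂ hXg
  obtain ⟨ℓ, ε₃, e₃, hℓ, hℓ₁, hε₃, he₃, hlin⟩ := Pool.ALT.alp_lin D (M := 2 * (K₁ + R + 1)) hb hh hh1 hδ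
    hlam hrr hgg (by positivity) hℓ₀
  obtain ⟨ℓ', hℓ'⟩ : ∃ ℓ' : ℝ, ℓ' = min (X / (4 * b)) (min g₂ 1) := ⟨_, rfl⟩
  have hℓ0 : 0 < ℓ' := by
    rw [hℓ']
    exact lt_min (by positivity) (lt_min hg₂ one_pos)
  have hℓX : 4 * (b * ℓ') ≤ X := by
    have h1 : ℓ' ≤ X / (4 * b) := by rw [hℓ']; exact min_le_left _ _
    rw [le_div_iff₀ (by positivity)] at h1
    linarith
  have hℓg : ℓ' ≤ g₂ := by rw [hℓ']; exact (min_le_right _ _).trans (min_le_left _ _)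
  have hℓ1 : ℓ' ≤ 1 := by rw [hℓ']; exact (min_le_right _ _).trans (min_le_right _ _)
  obtain ⟨h₁, ε₂, e₂', hh₁, hε₂, he₂', hbb⟩ := Pool.ALT.bbw_lin r₀ D (M := 2 * (K₁ + R + 1)) hb hh hh1 hX
    hℓ0 hℓX (by positivity)
  refine ⟨ℓ, h₁, min ε₃ (min ε₂ (X / 2)), min e₃ e₂', hℓ, hℓ₁, hh₁,
    lt_min hε₃ (lt_min hε₂ (half_pos hX)), lt_min he₃ he₂', fun η hη hηh => ?_⟩
  replace hbb := @hbb η hη hηh
  intro S al g₀ P θ P₂ θ₂ Eb e₂ c Pt r hr K₀ g L T Sl κ G N A V S₂ N' V' K ε q t Rc hSl hRK hεε'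
    hV hch μ hlab x e₀ ρ₀ π₀ φ e Kf k₁ htx hKf he0 he1' hφ hat hk₁ hρ₀ he₀ hμ hμq i j hi hj hVi
    hVj hlg hrg hμs m1 hπv hrv hra
  have hq := Rc.q0
  have hεε : ε ≤ ε₃ := hεε'.trans (min_le_left _ _)
  have hεε2 : ε ≤ ε₂ := hεε'.trans ((min_le_right _ _).trans (min_le_left _ _))
  have hεεX : ε ≤ X / 2 := hεε'.trans ((min_le_right _ _).trans (min_le_right _ _))
  have he1 : e ≤ e₃ := he1'.trans (min_le_left _ _)
  have he12 : e ≤ e₂' := he1'.trans (min_le_right _ _)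
  choose! E rk hE0 hE1 hE2 hE3 using hlab
  obtain ⟨S₁, hs₁, Rc₁, hw⟩ := halw Rc (by linarith) hV hch E rk
    (fun k hk => ⟨hE0 k hk, by linarith [hE1 k hk], hE3 k hk⟩)
  have hmonoD : ∀ {v p1 p2 E1 E2 u : ℝ}, Pool.ALT.AlW S₁ c r₀ (c (r₀ + 1)) D₀ v p1 p2 E1 E2 u →
      Pool.ALT.AlW S₁ c r₀ (c (r₀ + 1)) D v p1 p2 E1 E2 u := by
    intro v p1 p2 E1 E2 u H
    exact { H with
      lb := fun e he => by
        refine Pool.S6C.Bas.mono 0 (H.lb e he) ?_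
        rintro J - F A ⟨V, z, z', g, gu, k1, k2⟩
        exact ⟨V, z, z', g, gu, k1.mono (Finset.Subset.refl _) hD le_rfl le_rfl le_rfl,
          k2.mono (Finset.Subset.refl _) hD le_rfl le_rfl le_rfl⟩ }
  obtain ⟨k, hk, hk2, hk3⟩ := Pool.ALT.pow_near (X := (K₁ + R + 1) * q) (by positivity) hk₁
  have hRq : 0 ≤ R * q := by positivity
  have hRK' : (R + 1) * q ≤ K * q := mul_le_mul_of_nonneg_right hRK hq.le
  have htx' := abs_le.1 htx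
  obtain ⟨htx1, htx2⟩ := htx'
  have e1 : (K₁ + R + 1) * q = K₁ * q + (R + 1) * q := by ring
  rw [e1] at hk2 hk3
  have ht0 := Rc.t0
  have ht1 := Rc.t1
  have hbx : ∀ y : ℝ, |y - t| ≤ (R + 1) * q → |y - t| ≤ K * q := fun y hy => hy.trans hRK'
  have hεq : ε * q ≤ ε₃ * q := mul_le_mul_of_nonneg_right hεε hq.le
  have hVq : ∀ {y : ℝ}, |y| ≤ R → |t + y * q - t| ≤ R * q := by
    intro y hy
    rw [add_sub_cancel_left, abs_mul, abs_of_pos hq]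
    exact mul_le_mul_of_nonneg_right hy hq.le
  have hEm : ∀ k < N', max (E k) (Pool.SWC.Lx L r₀ (t + V' k * q) -
      L (r₀ + 1) (t + V' k * q) (t + V' k * q)) + L (r₀ + 1) (t + V' k * q) (t + V' k * q) +
      μ ≤ 1 := by
    intro k hk
    have h1 := hE1 k hk
    have h2 := hE2 k hk
    rcases max_choice (E k) (Pool.SWC.Lx L r₀ (t + V' k * q) -
      L (r₀ + 1) (t + V' k * q) (t + V' k * q)) with h3 | h3
    · rw [h3]
      linarith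
    · rw [h3]
      linarith
  obtain ⟨w, o₁, p₁, p₂, pN, c1, c2, c2', cl, cl', c10, c11, c3, c4, c5, c6, c7, c8, c9⟩ := hlin Rc₁.tmc Rc₁.pos hKf
    (Rc₁.inj.mono (by
      intro y hy
      rw [Set.mem_Iio] at hy ⊢
      omega)) ((hat k hk).sub hs₁) (K := R) (q := q) (t := t)
    (s₀ := L (r₀ + 1) t t) (v := t + V' i * q) (a := t + V' j * q) (μ := μ)
    (hmonoD (hw i hi)) (hmonoD (hw j hj)) he0 he1 hφ hq (by linarith) (by linarith)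
    (by linarith) (by linarith) (by linarith) (fun y hy => by
      have h1 := Rc.dL (r₀ + 1) (by omega) y (hbx y hy)
      rw [hSl] at h1
      exact h1.trans hεq) (fun y y' hy hy' hyy => by
      have h1 := abs_le.1 (hbx y hy)
      have h2 := abs_le.1 (hbx y' hy')
      exact (Rc.lawL (r₀ + 1) (by omega)).mono (by linarith) le_rfl hyy hyy le_rfl (by linarith))
    (hVq hVi) (hVq hVj) (by
      have e2 : b * (t + V' j * q - (t + V' i * q)) = b * (V' j - V' i) * q := by ring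
      rw [e2]
      exact mul_le_mul_of_nonneg_right hlg hq.le) (by
      have e2 : b * (t + R * q - (t + V' i * q)) = b * (R - V' i) * q := by ring
      rw [e2]
      exact mul_le_mul_of_nonneg_right hrg hq.le) hρ₀ he₀ hμ hμq hμs m1 (hEm i hi) (hEm j hj)
    (hE2 i hi) (hE2 j hj) hπv hrv hra
  obtain ⟨Ψ, hΨ⟩ : ∃ Ψ : Pool.ALT.Fml (r₀ + 2), Ψ = Pool.ALT.AlF ((range (r₀ + 1)).image c) ((range r₀).image c)
      (c (r₀ + 1)) Kf e₀ ρ₀ π₀ w ((fun w => L (r₀ + 1) w w) w) ((fun w => L (r₀ + 1) w w) o₁)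
      (φ * (o₁ - w) + 2 * e * (1 / 2) ^ k) := ⟨_, rfl⟩
  rw [← hΨ] at c7 c8 c9
  have hΨs : ∀ (J : ℕ) (F : Pool.KA.Fam (r₀ + 2) J) (A B : F.Ω → Prop) (V : Type) (z : Pool.GEN.PtT F → V)
      (z' : Pool.GEN.LnT F → V) (G : V → MvPolynomial (Option (Fin (r₀ + 2))) ℝ), Pool.K2S.Sub B A →
      Ψ J F A V z z' G → Ψ J F B V z z' G := by
    intro J F A B V z z' G hB hG
    rw [hΨ] at hG ⊢
    exact Pool.ALT.AlF.hs J F A B V z z' G hB hG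
  have hex := Pool.ALT.nzf_ex c7 hΨs c8 ((hmonoD (hw i hi)).ch1 c3) ((hmonoD (hw i hi)).ch2 c4)
  obtain ⟨S₂', h1, h2, h3⟩ := Pool.V0F.her_extc (ι := Unit) Rc₁.ne (fun _ J F A =>
      ∃ (V : Type) (z : Pool.GEN.PtT F → V) (z' : Pool.GEN.LnT F → V)
        (G : V → MvPolynomial (Option (Fin (r₀ + 2))) ℝ),
        Pool.ALT.NzF Ψ c r₀ (c (r₀ + 1)) D D D w (t + V' i * q) p₁ p₂
          (max (E i) (Pool.SWC.Lx L r₀ (t + V' i * q) -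
            L (r₀ + 1) (t + V' i * q) (t + V' i * q)) + μ / 4)
          (Pool.SWC.Lx L r₀ (t + V' i * q) + μ / 8) pN J F A V z z' G)
    (fun _ J F A B hB => by
      rintro ⟨V, z, z', G, hG⟩
      exact ⟨V, z, z', G, Pool.ALT.NzF.hs hΨs J F A B V z z' G hB hG⟩) (fun _ => ⟨8, hex⟩)
  refine ⟨S₂', fun τ J F A hA => hs₁ τ J F A (h2 τ J F A hA), Rc₁.sub h1 h2, Ψ, w, p₁, p₂, _, _,
    pN, c2, c2', c1, cl, cl', ?_, ?_, c6, h3 (), c7.sub h2,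
    fun n hn1 hn2 => (c9 n hn1 hn2).sub h2, fun k' hk' hik hkR hkR2 hXμ hXu hek hπk => ?_⟩
  · have := hEm i hi
    linarith
  · have := hE2 i hi
    linarith
  -- the slopes
  have hg₂q : g₂ * q ≤ V' k' * q - V' i * q := by
    have := mul_le_mul_of_nonneg_right hik hq.le
    linarith
  have hℓq : ℓ' * q ≤ g₂ * q := mul_le_mul_of_nonneg_right hℓg hq.le
  have hkR2q : V' k' * q + g₂ * q ≤ R * q := by
    have := mul_le_mul_of_nonneg_right hkR2 hq.le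
    linarith
  have hℓ1q : ℓ' * q ≤ q := by
    have := mul_le_mul_of_nonneg_right hℓ1 hq.le
    linarith
  have hkq := abs_le.1 (hVq hkR)
  have hiq := abs_le.1 (hVq hVi)
  have e4 : t + V' i * q - t = V' i * q := by ring
  have e3 : t + V' k' * q - t = V' k' * q := by ring
  rw [e3] at hkq
  rw [e4] at hiq
  have hXq : 2 * (X * q) ≤ b * (g₂ * q) := by
    have := mul_le_mul_of_nonneg_right hXg hq.le
    linarith
  have hbk : b * (g₂ * q) ≤ b * (V' k' * q - V' i * q) := mul_le_mul_of_nonneg_left hg₂q hb.le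
  have hRq1 : R * q ≤ (R + 1) * q := by linarith
  have hεX : ε * q ≤ X * q / 2 := by
    have := mul_le_mul_of_nonneg_right hεεX hq.le
    linarith
  have hLk : L (r₀ + 1) (t + V' i * q) (t + V' i * q) + X * q ≤
      L (r₀ + 1) (t + V' k' * q) (t + V' k' * q) := by
    have d1 := abs_le.1 (Rc.dL (r₀ + 1) (by omega) (t + V' k' * q)
      (hbx _ ((hVq hkR).trans hRq1)))
    have d2 := abs_le.1 (Rc.dL (r₀ + 1) (by omega) (t + V' i * q)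
      (hbx _ ((hVq hVi).trans hRq1)))
    rw [hSl, e3] at d1
    rw [hSl, e4] at d2
    have e5 : b * (V' k' * q - V' i * q) = b * (V' k' * q) - b * (V' i * q) := by ring
    linarith [d1.1, d2.2]
  have hXp : 0 < X * q := by positivity
  have h4 := hbb Rc₁.tmc Rc₁.pos (κ := c (r₀ + 1)) (Rc₁.inj.mono (by
      intro y hy
      rw [Set.mem_Iio] at hy ⊢
      omega)) hKf ((hat k hk).sub hs₁) (K := R) (q := q) (t := t)
    (s₀ := L (r₀ + 1) t t) (v := t + V' k' * q) (w := w) (o₁ := o₁)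
    (hmonoD (hw k' hk')) he0 he12 hφ hq (by linarith) (by linarith)
    (by linarith) (by linarith) (by linarith) (fun y hy => by
      have h1 := Rc.dL (r₀ + 1) (by omega) y (hbx y hy)
      rw [hSl] at h1
      exact h1.trans (mul_le_mul_of_nonneg_right hεε2 hq.le)) (fun y y' hy hy' hyy => by
      have h1 := abs_le.1 (hbx y hy)
      have h2 := abs_le.1 (hbx y' hy')
      exact (Rc.lawL (r₀ + 1) (by omega)).mono (by linarith) le_rfl hyy hyy le_rfl (by linarith))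
    c1 (by linarith) (by linarith [hkq.1]) (by linarith [hkq.2]) (by linarith) hρ₀ he₀ hek
    (by linarith [hEm k' hk']) (by linarith [hE2 k' hk']) (by linarith [hE2 k' hk']) (by linarith)
    hXu (by linarith) (by linarith)
  rw [← hΨ] at h4
  have h5 := Pool.ALT.blb_nz (K := D) (K₁ := D) (Ku := D) (p₁ := p₁) (p₂ := p₂)
    (e := max (E i) (Pool.SWC.Lx L r₀ (t + V' i * q) -
            L (r₀ + 1) (t + V' i * q) (t + V' i * q)) + μ / 4)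
    (u := Pool.SWC.Lx L r₀ (t + V' i * q) + μ / 8) (p := pN) (Rc₁.inj.mono (by
      intro y hy
      rw [Set.mem_Iio] at hy ⊢
      omega)) c2 (by linarith [hiq.2]) (fun J F A V z z' G hG => by
      rw [hΨ] at hG
      exact (Pool.ALT.AlF.hd J F A V z z' G hG).2.1) h4
  intro a1 a2 a3 a4
  exact Pool.S6C.Bas.sub h2 (h5 a1 a2 a3 a4)

end Pool.W.ALT
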