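import Pool.Agent.H92.ALT.Sl2
import Pool.Agent.H31.W.H60.ALT.Nwc
import Pool.Agent.H31.W.H73.D2.Tml

/-!
# The slope hypothesis from the natural labels of a blind family

`nzl_pd`: a natural label has the slope of its label. `blb_nz`: `BlB` of the family of natural labels.
`slh_nz`: `SlH` for a family of natural labels.
-/

set_option autoImplicit false

namespace Pool.W.ALT

open Pool.ALT

open Finset Real MvPolynomial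
open Pool.Agent.H49.Ent Pool.Agent.H32.Dense Pool.STK Pool.KA Pool.KSAT Pool.K2S Pool.PB Pool.S6C
  Pool.GEN Pool.RCD Pool.LA91 Pool.OWN68
open Pool.CHT Pool.CHX Pool.ISO Pool.D2R Pool.D2G30 Pool.V1E Pool.CR99
open Pool.UNJ (ceI)
open Pool.BFL (Pb)
open Pool.GRD (LbP)
open Pool.PN18 (Fm2)

variable {m : ℕ}


/-- **The slope hypothesis** from a family of labels closed at the window `w ≤ o 0`. -/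
theorem slh_nz {S : Pool.PB.PCl m} (hpos : ∀ (τ : ℝ) (J : ℕ) (F : Pool.KA.Fam m J)
      (A : F.Ω → Prop), S.St τ J F A → 0 < Pool.K2S.Pe F.p A) {c : ℕ → Fin m} {r D Dw Dr N N₂ : ℕ}
    {R : ℕ → Prop} {C a Eb ε₀ η₀ χ mb : ℝ} {Pt : ℝ → ℝ → ℝ} {o : ℕ → ℝ} {lv be : ℕ → ℕ → ℝ}
    (hc : Set.InjOn c (Set.Iio (r + 2))) (hN1 : 1 ≤ N) (hN : 3 ≤ N₂) {Kd : ℕ} {w : ℝ}
    (hKw : Kd ≤ Dw) (hDr : D ≤ Dr) (hKr : Kd ≤ Dr) (hwo : w ≤ o 0) (h01 : o 0 ≤ o 1)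
    (h03 : o 0 ≤ o 3) (ho1 : o 1 ≤ 1) (ho3 : o 3 ≤ 1) (hη₀ : 0 < η₀)
    (hmb : o 3 - o 0 ≤ mb) (ho0 : 0 ≤ o 0) (hoa : o 1 ≤ a) (hχ : 0 ≤ χ) (hε₀ : 0 ≤ ε₀)
    (hl0 : 0 ≤ lv 0 (r + 1)) (hl0r : 0 ≤ lv 0 r) {Θ : Pool.PN18.Fm2 m}
    (hΘd : ∀ (J : ℕ) (F : Pool.KA.Fam m J) (A : F.Ω → Prop) (V C : Type) (z : Pool.GEN.PtT F → V) (z' : Pool.GEN.LnT F → V)
      (G₁ G₂ : V → MvPolynomial (Option (Fin m)) ℝ) (cc : Pool.GEN.LnT F → C), Θ J F A V C z z' G₁ G₂ cc →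
      (∀ y, (G₂ y).totalDegree ≤ Kd) ∧ (∀ y, Pool.ALT.DpI ((range (r + 1)).image c) (G₂ y)) ∧
      ∀ ω, A ω → z (Pool.PB.ptr F J ω) = z' (Pool.KSAT.slam F ⌊w * J⌋₊ ω))
    (hΘs : ∀ (J : ℕ) (F : Pool.KA.Fam m J) (A B : F.Ω → Prop) (V C : Type) (z : Pool.GEN.PtT F → V)
      (z' : Pool.GEN.LnT F → V) (G₁ G₂ : V → MvPolynomial (Option (Fin m)) ℝ) (cc : Pool.GEN.LnT F → C), Pool.K2S.Sub B A →
      Θ J F A V C z z' G₁ G₂ cc → Θ J F B V C z z' G₁ G₂ cc)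
    {p q x : ℕ → ℝ}
    (hB0 : Pool.ALT.BlB S c r (c (r + 1)) w (o 0) D D (p 0) (q 0) (x 0) (Pool.ALT.Fm2.lab Θ))
    (hB1 : Pool.ALT.BlB S c r (c (r + 1)) w (o 1) D D (p 1) (q 1) (x 1) (Pool.ALT.Fm2.lab Θ))
    (hB3 : Pool.ALT.BlB S c r (c (r + 1)) w (o 3) D D (p 3) (q 3) (x 3) (Pool.ALT.Fm2.lab Θ))
    (hp : ∀ k, p k < lv k (r + 1) - η₀) (hq : ∀ k, q k < lv k r - η₀)
    (hx0 : x 0 + η₀ < lv 0 r - lv 0 (r + 1) + χ)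
    (hx3 : x 3 + 2 * η₀ < lv 3 r - lv 0 (r + 1) - mb + χ)
    (hx1 : x 1 < lv 0 r - lv 0 (r + 1) - (mb - (o 3 - o 0)) + χ)
    {qr gm : ℝ} (hqr0 : 0 ≤ qr) (hqr1 : qr + C * η₀ ≤ Pt a (o 0) - 2 * (C * η₀))
    (hqr2 : qr + C * η₀ < lv 1 (r + 1) + (a - o 1) - η₀)
    (hgR : R r → lv 1 r + (a - o 1) ≤ gm) (hgN : ¬ R r → be 1 r ≤ gm)
    (hrow : C * η₀ + gm - qr < lv 0 r - lv 0 (r + 1) - (mb - (o 3 - o 0)) + χ)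
    {K₄ : ℝ} (hK₄ : 1 ≤ K₄) (hex : Pool.S6C.Bas S (fun J F A => ∃ A₁ : F.Ω → Prop, Pool.K2S.Sub A₁ A ∧
      Pool.K2S.Pe F.p A ≤ K₄ * Pool.K2S.Pe F.p A₁ ∧ ∃ (V C : Type) (z : Pool.GEN.PtT F → V) (z' : Pool.GEN.LnT F → V)
        (G₁ G₂ : V → MvPolynomial (Option (Fin m)) ℝ) (cc : Pool.GEN.LnT F → C),
        Θ J F A₁ V C z z' G₁ G₂ cc)) :
    Pool.W.V1E.SlH S c r D Dw Dr N N₂ R C a Eb ε₀ η₀ χ mb Pt o lv be (1 / (4 * K₄)) (8 * K₄) (Pool.ALT.XiF Θ w) := by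
  have hK0 : 0 < K₄ := by linarith
  have hnw := Pool.W.ALT.nwc_B (Ψ := Pool.ALT.Fm2.lab Θ) (Eb := Eb) (Dr := Dr) (be := be) (κ := 1 / 4) (R := R) hpos hc
    hN1 hN hKw hDr hKr hwo h01 h03 ho1 ho3 hη₀ le_rfl hmb ho0 hoa hχ hε₀ hl0 hl0r
    (fun J F A V z z' G hG => by
      obtain ⟨C, G₁, cc, hG⟩ := hG
      exact hΘd J F A V C z z' G₁ G cc hG) hB0 hB1 hB3 hp hq hx0 hx3 hx1 hqr0 hqr1 hqr2 hgR hgN hrow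
  refine Pool.S6C.Bas.mono 0 (hex.and (Pool.V1E.bas_big hnw K₄)) ?_
  rintro J - F B ⟨⟨A₁, hA₁, hPA, V, C', z, z', G₁, G₂, cc, hΘ⟩, w2⟩ b zz gc gT g₀ Gc H T TH Gt Ht W
  have W' := W.res (κ₁ := 1 / K₄) (κ₂ := 1 / 4) hA₁ (by
    rw [one_div_mul_eq_div, div_le_iff₀ hK0, mul_comm]
    exact hPA) (by norm_num) (by
    rw [← one_div_mul_one_div])
  obtain ⟨B₂, hB₂, hPB, hN⟩ := w2 A₁ hA₁ hPA V z z' G₂ ⟨C', G₁, cc, hΘ⟩ b zz gc gT g₀ Gc H T TH Gt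
    Ht W'
  refine ⟨B₂, _, _, fun ω hω => hA₁ ω (hB₂ ω hω), ?_, hN, V, C', z, z', G₁, G₂, cc,
    hΘs J F A₁ B₂ V C' z z' G₁ G₂ cc hB₂ hΘ, fun ω hω => ?_⟩
  · calc Pool.K2S.Pe F.p B ≤ K₄ * Pool.K2S.Pe F.p A₁ := hPA
      _ ≤ K₄ * (8 * Pool.K2S.Pe F.p B₂) := mul_le_mul_of_nonneg_left hPB hK0.le
      _ = 8 * K₄ * Pool.K2S.Pe F.p B₂ := by ring
  · show G₂ (z (Pool.PB.ptr F J ω)) = _
    rw [(hΘd J F A₁ V C' z z' G₁ G₂ cc hΘ).2.2 ω (hB₂ ω hω)]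

end Pool.W.ALT
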