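import Pool.Agent.H92.ALT.Sl6
import Pool.Agent.H31.W.H60.ALT.Nwc
import Pool.Agent.H31.W.H73.D2.Tnh
import Pool.Agent.H31.W1.H23.D2.Bln
import Pool.Agent.H31.W1.H80.GEN.Chn

/-!
# The slope hypothesis without the row label from a blind family

`nwc_BU`: `NwCU` from a blind family at the two balls. `slh_nzU`: `SlHU` for a family of labels.
-/

set_option autoImplicit false

namespace Pool.W.ALT

open Pool.ALT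

open Finset Real MvPolynomial
open Pool.Agent.H49.Ent Pool.Agent.H32.Dense Pool.STK Pool.KA Pool.KSAT Pool.K2S Pool.PB Pool.S6C
  Pool.GEN Pool.RCD Pool.LA91 Pool.OWN68
open Pool.CHT Pool.CHX Pool.ISO Pool.D2R Pool.D2G30 Pool.V1E Pool.CR99
open Pool.UNJ (ceI)
open Pool.GRW (xr xr_near)
open Pool.BFL (Pb)
open Pool.GRD (LbP)
open Pool.PB.Trl (rt rt_mem t_rt)
open Pool.PN18 (Fm2)

variable {m : ℕ}

/-- **The data `NwCU` from a blind family.** -/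
theorem nwc_BU {S : Pool.PB.PCl m} (hpos : ∀ (τ : ℝ) (J : ℕ) (F : Pool.KA.Fam m J)
      (A : F.Ω → Prop), S.St τ J F A → 0 < Pool.K2S.Pe F.p A) {c : ℕ → Fin m} {r D Dw Dr N N₂ : ℕ}
    {R : ℕ → Prop} {C a Eb ε₀ η₀ χ mb : ℝ} {Pt : ℝ → ℝ → ℝ} {o : ℕ → ℝ} {lv be : ℕ → ℕ → ℝ}
    {κ : ℝ} (hc : Set.InjOn c (Set.Iio (r + 2))) (hN : 3 ≤ N₂) {Kd : ℕ} {w : ℝ}
    (hKw : Kd ≤ Dw) (hDr : D ≤ Dr) (hKr : Kd ≤ Dr) (hwo : w ≤ o 0)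
    (h03 : o 0 ≤ o 3) (ho3 : o 3 ≤ 1) (hη₀ : 0 < η₀) (hκ : κ ≤ 1 / 4)
    (hmb : o 3 - o 0 ≤ mb) (hχ : 0 ≤ χ)
    (hl0 : 0 ≤ lv 0 (r + 1)) (hl0r : 0 ≤ lv 0 r)
    {Ψ : ∀ (J : ℕ) (F : Pool.KA.Fam m J), (F.Ω → Prop) → ∀ V : Type, (Pool.GEN.PtT F → V) →
      (Pool.GEN.LnT F → V) → (V → MvPolynomial (Option (Fin m)) ℝ) → Prop}
    (hΨd : ∀ (J : ℕ) (F : Pool.KA.Fam m J) (A : F.Ω → Prop) (V : Type) (z : Pool.GEN.PtT F → V) (z' : Pool.GEN.LnT F → V)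
      (G : V → MvPolynomial (Option (Fin m)) ℝ), Ψ J F A V z z' G →
      (∀ y, (G y).totalDegree ≤ Kd) ∧ (∀ y, Pool.ALT.DpI ((range (r + 1)).image c) (G y)) ∧
      ∀ ω, A ω → z (Pool.PB.ptr F J ω) = z' (Pool.KSAT.slam F ⌊w * J⌋₊ ω))
    {p q x : ℕ → ℝ}
    (hB0 : Pool.ALT.BlB S c r (c (r + 1)) w (o 0) D D (p 0) (q 0) (x 0) Ψ)
    (hB3 : Pool.ALT.BlB S c r (c (r + 1)) w (o 3) D D (p 3) (q 3) (x 3) Ψ)
    (hp : ∀ k, p k < lv k (r + 1) - η₀) (hq : ∀ k, q k < lv k r - η₀)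
    (hx0 : x 0 + η₀ < lv 0 r - lv 0 (r + 1) + χ)
    (hx3 : x 3 + 2 * η₀ < lv 3 r - lv 0 (r + 1) - mb + χ) :
    Pool.S6C.Bas S (fun J F B => ∀ (V : Type) (z : Pool.GEN.PtT F → V) (z' : Pool.GEN.LnT F → V)
      (Gp : V → MvPolynomial (Option (Fin m)) ℝ), Ψ J F B V z z' Gp →
      ∀ (b : ℕ → ℕ → ℝ) (zz : ℕ → ℕ → ℕ) (gc gT g₀ : ℕ → ℕ → ℕ)
      (G : ℕ → Pool.GEN.PtT F → ℕ → MvPolynomial (Option (Fin m)) ℝ)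
      (H : ℕ → Pool.GEN.LnT F → ℕ → MvPolynomial (Option (Fin m)) ℝ)
      (T : ℕ → Pool.GEN.PtT F → ℕ → MvPolynomial (Option (Fin m)) ℝ)
      (TH : ℕ → Pool.GEN.LnT F → ℕ → MvPolynomial (Option (Fin m)) ℝ)
      (Gt : ℕ → Pool.GEN.PtT F → MvPolynomial (Option (Fin m)) ℝ)
      (Ht : ℕ → Pool.GEN.LnT F → MvPolynomial (Option (Fin m)) ℝ),
      Pool.W.V1E.WG c (r + 1) D Dr N N₂ R C a Eb ε₀ η₀ Pt o lv be F b κ zz B gc gT g₀ G H T TH Gt Ht →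
      ∃ B₂ : F.Ω → Prop, Pool.K2S.Sub B₂ B ∧ Pool.K2S.Pe F.p B ≤ 8 * Pool.K2S.Pe F.p B₂ ∧
        Pool.V1E.NwCU F c r Dw ⌊mb * J⌋₊ (⌊o 3 * J⌋₊ - ⌊o 0 * J⌋₊) ⌊χ * J⌋₊ ⌊lv 0 r * J⌋₊
          ⌊lv 0 (r + 1) * J⌋₊ (fun k => ⌊o (Pool.V1E.fr4 k) * J⌋₊) (fun k => g₀ (Pool.V1E.fr4 k)) B₂
          (fun k => G (Pool.V1E.fr4 k)) (Ht 0) (fun L => Gp (Pool.ALT.wz z' ⌊w * J⌋₊ ⌊o 0 * J⌋₊ L))
          (fun y => Gp (z y))) := by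
  classical
  have big : ∀ {x y : ℝ}, 0 < x → ∃ J₀ : ℕ, ∀ J : ℕ, J₀ ≤ J → y ≤ x * J := by
    intro x y hx
    refine ⟨⌈y / x⌉₊, fun J hJ => ?_⟩
    have h1 : y / x ≤ J := (Nat.le_ceil _).trans (by exact_mod_cast hJ)
    rw [div_le_iff₀ hx] at h1
    linarith
  have hC1 : ∃ χ' : ℝ, 0 < χ' ∧ (∀ k, k = 0 ∨ k = 3 → p k + χ' ≤ lv k (r + 1) - η₀ ∧
      q k + χ' ≤ lv k r - η₀) := by
    obtain ⟨a1, ha1⟩ : ∃ t, t = lv 0 (r + 1) - η₀ - p 0 := ⟨_, rfl⟩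
    obtain ⟨a3, ha3⟩ : ∃ t, t = lv 3 (r + 1) - η₀ - p 3 := ⟨_, rfl⟩
    obtain ⟨b1, hb1⟩ : ∃ t, t = lv 0 r - η₀ - q 0 := ⟨_, rfl⟩
    obtain ⟨b3, hb3⟩ : ∃ t, t = lv 3 r - η₀ - q 3 := ⟨_, rfl⟩
    refine ⟨min (min a1 a3) (min b1 b3), lt_min (lt_min ?_ ?_) (lt_min ?_ ?_), ?_⟩
    · linarith [hp 0]
    · linarith [hp 3]
    · linarith [hq 0]
    · linarith [hq 3]
    · have i1 : min (min a1 a3) (min b1 b3) ≤ a1 := (min_le_left _ _).trans (min_le_left _ _)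
      have i3 : min (min a1 a3) (min b1 b3) ≤ a3 := (min_le_left _ _).trans (min_le_right _ _)
      have j1 : min (min a1 a3) (min b1 b3) ≤ b1 := (min_le_right _ _).trans (min_le_left _ _)
      have j3 : min (min a1 a3) (min b1 b3) ≤ b3 := (min_le_right _ _).trans (min_le_right _ _)
      rintro k (rfl | rfl)
      · constructor <;> linarith
      · constructor <;> linarith
  obtain ⟨χ', hχ', hpq⟩ := hC1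
  obtain ⟨J₁, hJ₁⟩ := big (x := lv 0 r - lv 0 (r + 1) + χ - (x 0 + η₀)) (y := 2) (by linarith)
  obtain ⟨J₂, hJ₂⟩ := big (x := lv 3 r - lv 0 (r + 1) - mb + χ - (x 3 + 2 * η₀)) (y := 1)
    (by linarith)
  have hcr : Set.InjOn c (Set.Iio (r + 1)) := hc.mono fun y hy => by
    rw [Set.mem_Iio] at hy ⊢
    omega
  refine Pool.S6C.Bas.mono (J₁ + J₂) ((hB0 (1 / 8) χ' (by norm_num) hχ').and
    ((hB3 (1 / 8) χ' (by norm_num) hχ').and (Pool.LA91.pos_bas hpos))) ?_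
  rintro J hJ F B ⟨K0, K3, hB⟩ V z z' Gp hΨ b zz gc gT g₀ G H T TH Gt Ht W
  have j1 := hJ₁ J (by omega)
  have j2 := hJ₂ J (by omega)
  have hJ0 : (0 : ℝ) ≤ J := Nat.cast_nonneg J
  have mulJ : ∀ {x y : ℝ}, x ≤ y → x * J ≤ y * J := fun h => mul_le_mul_of_nonneg_right h hJ0
  obtain ⟨hGd, hGp, hGc⟩ := hΨd J F B V z z' Gp hΨ
  -- the charts
  have hev : ∀ k ≤ N₂, Pool.W.GEN.ChOK F c (r + 2) (fun _ => D) ⌊o k * J⌋₊ ⌊o k * J⌋₊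
      ⌊(Eb + η₀ + η₀) * J⌋₊ (g₀ k) B (G k) (H k) ∧ Pool.ISO.Clsd F (r + 2) ⌊o k * J⌋₊ B (G k) (H k) ∧
      Pool.CHT.RelvF F c (r + 1) ⌊o k * J⌋₊ ⌊o k * J⌋₊ (g₀ k) Dr ⌊η₀ * J⌋₊ κ B (G k) ∧
      ∀ l ≤ r + 1, (lv k l - η₀) * J ≤ g₀ k l := fun k hk =>
    ⟨(W.wb.ev k hk).ball, (W.wb.ev k hk).cls, (W.wb.ev k hk).relb,
      fun l hl => (W.wb.sds k hk l hl).1⟩
  have hsl : ∀ k, k = 0 ∨ k = 3 → ∀ (y : ℝ) (_ : y = x k),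
      (∀ (P₁ : ℕ) (V₁ : Type) (z₁ : Pool.GEN.PtT F → V₁) (z₁' : Pool.GEN.LnT F → V₁)
      (G₁ : V₁ → MvPolynomial (Option (Fin m)) ℝ),
      Pool.GRD.LbP F ((range (r + 1)).image c) (c (r + 1)) D J ⌊o k * J⌋₊ P₁ B z₁ z₁' G₁ →
      (p k + χ') * J ≤ P₁ → ∀ (P₂ : ℕ) (V₂ : Type) (z₂ : Pool.GEN.PtT F → V₂) (z₂' : Pool.GEN.LnT F → V₂)
      (H : V₂ → MvPolynomial (Option (Fin m)) ℝ),
      Pool.GRD.LbP F ((range r).image c) (c r) D J ⌊o k * J⌋₊ P₂ B z₂ z₂' H → (q k + χ') * J ≤ P₂ →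
      Pool.BFL.Pb (Pool.Agent.H49.Ent.cond F.p B True) (fun ω => (2 : ℝ) ^ (x k * J) <
        |eval (Pool.GEN.bt F ω) (pderiv (some (c r)) (G₁ (z₁' (Pool.KSAT.slam F ⌊o k * J⌋₊ ω)) -
          Gp (z' (Pool.KSAT.slam F ⌊w * J⌋₊ ω))))|) ≤ 1 / 8) →
      Pool.BFL.Pb (Pool.Agent.H49.Ent.cond F.p B True) (fun ω => (2 : ℝ) ^ (x k * J) <
        |eval (Pool.GEN.bt F ω) (pderiv (some (c r)) (H k (Pool.KSAT.slam F ⌊o k * J⌋₊ ω) (r + 1) -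
          Gp (z' (Pool.KSAT.slam F ⌊w * J⌋₊ ω))))|) ≤ 1 / 8 := by
    intro k hk _ _ h1
    have hk2 : k ≤ N₂ := by rcases hk with h | h <;> omega
    obtain ⟨c1, c2, -, c4⟩ := hev k hk2
    obtain ⟨V₁, z₁, z₁', G₁, d1, d2⟩ := Pool.W.ALT.lbp_ch c1 c2 (i := r + 1) (by omega)
    obtain ⟨V₂, z₂, z₂', G₂, e1, e2⟩ := Pool.W.ALT.lbp_ch c1 c2 (i := r) (by omega)
    have h2 := h1 (g₀ k (r + 1)) V₁ z₁ z₁' G₁ d1 ((mulJ (hpq k hk).1).trans (c4 _ le_rfl))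
      (g₀ k r) V₂ z₂ z₂' G₂ e1 ((mulJ (hpq k hk).2).trans (c4 _ (by omega)))
    simp only [d2] at h2
    exact h2
  have s0 := hsl 0 (Or.inl rfl) _ rfl (K0 V z z' Gp hΨ)
  have s3 := hsl 3 (Or.inr rfl) _ rfl (K3 V z z' Gp hΨ)
  obtain ⟨bad, hbad⟩ : ∃ bad : ℕ → F.Ω → Prop, bad = fun k ω => (2 : ℝ) ^ (x k * J) <
        |eval (Pool.GEN.bt F ω) (pderiv (some (c r)) (H k (Pool.KSAT.slam F ⌊o k * J⌋₊ ω) (r + 1) -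
          Gp (z' (Pool.KSAT.slam F ⌊w * J⌋₊ ω))))| := ⟨_, rfl⟩
  have t := Pool.ALT.pe_three F.isLaw.nonneg hB (bad 0) (bad 0) (bad 3) (η := 1 / 8)
    (by rw [hbad]; exact s0) (by rw [hbad]; exact s0) (by rw [hbad]; exact s3)
  obtain ⟨B₁, hB₁⟩ : ∃ B₁ : F.Ω → Prop, B₁ = fun ω => B ω ∧ ¬ (bad 0 ω ∨ bad 0 ω ∨ bad 3 ω) :=
    ⟨_, rfl⟩
  rw [← hB₁] at t
  have hB₁B : Pool.K2S.Sub B₁ B := fun ω hω => by
    rw [hB₁] at hω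
    exact hω.1
  have hgood : ∀ ω, B₁ ω → ∀ k, k = 0 ∨ k = 3 →
      |eval (Pool.GEN.bt F ω) (pderiv (some (c r)) (H k (Pool.KSAT.slam F ⌊o k * J⌋₊ ω) (r + 1) -
          Gp (z' (Pool.KSAT.slam F ⌊w * J⌋₊ ω))))| ≤ (2 : ℝ) ^ (x k * J) := by
    intro ω hω k hk
    rw [hB₁] at hω
    have h1 : ¬ bad k ω := by
      rcases hk with rfl | rfl
      · exact fun h => hω.2 (Or.inl h)
      · exact fun h => hω.2 (Or.inr (Or.inr h))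
    rw [hbad] at h1
    exact not_lt.1 h1
  -- the boxes
  have hbox : ∀ k, k = 0 ∨ k = 3 → ∀ B' : F.Ω → Prop, Pool.K2S.Sub B' B₁ → κ * Pool.K2S.Pe F.p B ≤ Pool.K2S.Pe F.p B' →
      ∃ B'' : F.Ω → Prop, Pool.K2S.Sub B'' B' ∧ Pool.K2S.Pe F.p B' / 2 ≤ Pool.K2S.Pe F.p B'' ∧ ∀ ω, B'' ω →
        ∀ bb, Pool.GEN.NBx c (G k (Pool.PB.ptr F J ω)) (g₀ k) ⌊o k * J⌋₊ (F.t ω) (r + 1) bb →
        |eval bb (pderiv (some (c r)) (G k (Pool.PB.ptr F J ω) (r + 1))) -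
          eval bb (pderiv (some (c r)) (Gp (z (Pool.PB.ptr F J ω))))| ≤
          2 ^ ⌊η₀ * J⌋₊ * 2 ^ (x k * J) := by
    intro k hk B' hB' hκB
    have hk2 : k ≤ N₂ := by rcases hk with h | h <;> omega
    have hok : o k ≤ 1 := by rcases hk with rfl | rfl <;> linarith
    have hwk : w ≤ o k := by rcases hk with rfl | rfl <;> linarith
    obtain ⟨c1, c2, c3, -⟩ := hev k hk2
    obtain ⟨f1, f2⟩ := Pool.ALT.floorw hwk hok J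
    have hdeg : ∀ P Q : MvPolynomial (Option (Fin m)) ℝ, P.totalDegree ≤ D →
        Q.totalDegree ≤ Kd → (pderiv (some (c r)) (P - Q)).totalDegree ≤ Dr := fun P Q h1 h2 =>
      (Pool.ALT.pd_dg _ _).trans ((totalDegree_sub _ _).trans (max_le (h1.trans hDr) (h2.trans hKr)))
    have hdep : ∀ P Q : MvPolynomial (Option (Fin m)) ℝ, Pool.GEN.DepC c (r + 1) P →
        Pool.ALT.DpI ((range (r + 1)).image c) Q → Pool.GEN.DepC c (r + 1) (pderiv (some (c r)) (P - Q)) := by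
      intro P Q h1 h2
      have h3 : Pool.GEN.DepC c (r + 1) (P - Q) := fun b b' h4 h5 => by
        rw [map_sub, map_sub, h1 b b' h4 h5, h2 b b' h4 fun i hi => by
          obtain ⟨l, hl, rfl⟩ := mem_image.1 hi
          exact h5 l (mem_range.1 hl)]
      exact h3.pderiv _
    have heq : ∀ ω, B' ω → G k (Pool.PB.ptr F J ω) (r + 1) - Gp (z (Pool.PB.ptr F J ω)) =
        H k (Pool.KSAT.slam F ⌊o k * J⌋₊ ω) (r + 1) - Gp (z' (Pool.KSAT.slam F ⌊w * J⌋₊ ω)) := by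
      intro ω hω
      rw [c2 ω (hB₁B ω (hB' ω hω)) (r + 1) (by omega), hGc ω (hB₁B ω (hB' ω hω))]
    obtain ⟨B'', d1, d2, d3⟩ := c3 B' (fun ω hω => hB₁B ω (hB' ω hω)) hκB
      (fun y => pderiv (some (c r)) (G k y (r + 1) - Gp (z y)))
      (fun s => pderiv (some (c r)) (H k s (r + 1) - Gp (Pool.ALT.wz z' ⌊w * J⌋₊ ⌊o k * J⌋₊ s)))
      (2 ^ (x k * J)) (fun y => hdeg _ _ (c1.degG y _) (hGd _))
      (fun s => hdeg _ _ (c1.degH s _) (hGd _)) (fun y => hdep _ _ (c1.depG y _) (hGp _))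
      (fun s => hdep _ _ (c1.depH s _) (hGp _)) (Real.rpow_pos_of_pos (by norm_num) _)
      (fun ω hω => by
        rw [heq ω hω]
        exact hgood ω (hB' ω hω) k hk)
      (fun ω hω bb _ => by
        rw [heq ω hω, Pool.ALT.wz_slam z' f1 f2, sub_self, abs_zero]
        exact (Real.rpow_pos_of_pos (by norm_num) _).le)
    refine ⟨B'', d1, d2, fun ω hω bb hb => ?_⟩
    have := d3 ω hω bb hb
    rw [map_sub, map_sub] at this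
    exact this
  have t1 : Pool.K2S.Pe F.p B ≤ 8 / 5 * Pool.K2S.Pe F.p B₁ := by linarith
  obtain ⟨B₂, d1, d2, d3⟩ := hbox 0 (Or.inl rfl) B₁ (fun ω h => h) (by nlinarith)
  obtain ⟨B₃, e1, e2, e3⟩ := hbox 3 (Or.inr rfl) B₂ d1 (by nlinarith)
  refine ⟨B₃, fun ω hω => hB₁B ω (d1 ω (e1 ω hω)), by linarith, ?_⟩
  have hf1 : Pool.V1E.fr4 1 = 0 := rfl
  have hf2 : Pool.V1E.fr4 2 = 3 := rfl
  obtain ⟨f1, f2⟩ := Pool.ALT.floorw hwo (h03.trans ho3) J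
  have hGpC : ∀ v, Pool.GEN.DepC c (r + 1) (Gp v) := fun v b b' h4 h5 => hGp v b b' h4 fun i hi => by
    obtain ⟨l, hl, rfl⟩ := mem_image.1 hi
    exact h5 l (mem_range.1 hl)
  have kχ := Pool.ALT.flb (mul_nonneg hχ hJ0)
  have k0r := Pool.ALT.flb (mul_nonneg hl0r hJ0)
  have k0 := Pool.ALT.flb (mul_nonneg hl0 hJ0)
  have kη := Pool.ALT.flb (mul_nonneg hη₀.le hJ0)
  have hmb0 : 0 ≤ mb := by linarith
  have kmb := Pool.ALT.flb (mul_nonneg hmb0 hJ0)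
  refine ⟨fun L => (hGd _).trans hKw, fun y => (hGd _).trans hKw, fun L => hGpC _,
    fun y => hGpC _, fun ω hω => ?_, fun ω hω bb hb => ?_, fun ω hω bb hb => ?_⟩
  · have hBω := hB₁B ω (d1 ω (e1 ω hω))
    show Gp (z (Pool.PB.ptr F J ω)) = Gp (Pool.ALT.wz z' ⌊w * J⌋₊ ⌊o 0 * J⌋₊ (Pool.KSAT.slam F ⌊o (Pool.V1E.fr4 1) * J⌋₊ ω))
    rw [hf1, Pool.ALT.wz_slam z' f1 f2, hGc ω hBω]
  · refine (d3 ω (e1 ω hω) bb hb).trans ?_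
    rw [← Real.rpow_natCast, ← Real.rpow_add (by norm_num)]
    refine Pool.ALT.rp_le ?_
    push_cast
    nlinarith [kχ.2, k0r.2, k0.1, kη.1]
  · refine (e3 ω hω bb hb).trans ?_
    rw [← Real.rpow_natCast, ← Real.rpow_add (by norm_num)]
    refine Pool.ALT.rp_le ?_
    have hg := (hev 3 hN).2.2.2 r (by omega)
    show _ ≤ ((g₀ 3 r + ⌊χ * J⌋₊ : ℕ) : ℝ)
    push_cast
    nlinarith [kχ.2, k0.1, kη.1, kmb.1]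

/-- **The slope hypothesis without the row label** from a family of labels closed at the window
`w ≤ o 0`. -/
theorem slh_nzU {S : Pool.PB.PCl m} (hpos : ∀ (τ : ℝ) (J : ℕ) (F : Pool.KA.Fam m J)
      (A : F.Ω → Prop), S.St τ J F A → 0 < Pool.K2S.Pe F.p A) {c : ℕ → Fin m} {r D Dw Dr N N₂ : ℕ}
    {R : ℕ → Prop} {C a Eb ε₀ η₀ χ mb : ℝ} {Pt : ℝ → ℝ → ℝ} {o : ℕ → ℝ} {lv be : ℕ → ℕ → ℝ}
    (hc : Set.InjOn c (Set.Iio (r + 2))) (hN : 3 ≤ N₂) {Kd : ℕ} {w : ℝ}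
    (hKw : Kd ≤ Dw) (hDr : D ≤ Dr) (hKr : Kd ≤ Dr) (hwo : w ≤ o 0)
    (h03 : o 0 ≤ o 3) (ho3 : o 3 ≤ 1) (hη₀ : 0 < η₀)
    (hmb : o 3 - o 0 ≤ mb) (hχ : 0 ≤ χ)
    (hl0 : 0 ≤ lv 0 (r + 1)) (hl0r : 0 ≤ lv 0 r) {Θ : Pool.PN18.Fm2 m}
    (hΘd : ∀ (J : ℕ) (F : Pool.KA.Fam m J) (A : F.Ω → Prop) (V C : Type) (z : Pool.GEN.PtT F → V) (z' : Pool.GEN.LnT F → V)
      (G₁ G₂ : V → MvPolynomial (Option (Fin m)) ℝ) (cc : Pool.GEN.LnT F → C), Θ J F A V C z z' G₁ G₂ cc →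
      (∀ y, (G₂ y).totalDegree ≤ Kd) ∧ (∀ y, Pool.ALT.DpI ((range (r + 1)).image c) (G₂ y)) ∧
      ∀ ω, A ω → z (Pool.PB.ptr F J ω) = z' (Pool.KSAT.slam F ⌊w * J⌋₊ ω))
    (hΘs : ∀ (J : ℕ) (F : Pool.KA.Fam m J) (A B : F.Ω → Prop) (V C : Type) (z : Pool.GEN.PtT F → V)
      (z' : Pool.GEN.LnT F → V) (G₁ G₂ : V → MvPolynomial (Option (Fin m)) ℝ) (cc : Pool.GEN.LnT F → C), Pool.K2S.Sub B A →
      Θ J F A V C z z' G₁ G₂ cc → Θ J F B V C z z' G₁ G₂ cc)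
    {p q x : ℕ → ℝ}
    (hB0 : Pool.ALT.BlB S c r (c (r + 1)) w (o 0) D D (p 0) (q 0) (x 0) (Pool.ALT.Fm2.lab Θ))
    (hB3 : Pool.ALT.BlB S c r (c (r + 1)) w (o 3) D D (p 3) (q 3) (x 3) (Pool.ALT.Fm2.lab Θ))
    (hp : ∀ k, p k < lv k (r + 1) - η₀) (hq : ∀ k, q k < lv k r - η₀)
    (hx0 : x 0 + η₀ < lv 0 r - lv 0 (r + 1) + χ)
    (hx3 : x 3 + 2 * η₀ < lv 3 r - lv 0 (r + 1) - mb + χ)
    {K₄ : ℝ} (hK₄ : 1 ≤ K₄) (hex : Pool.S6C.Bas S (fun J F A => ∃ A₁ : F.Ω → Prop, Pool.K2S.Sub A₁ A ∧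
      Pool.K2S.Pe F.p A ≤ K₄ * Pool.K2S.Pe F.p A₁ ∧ ∃ (V C : Type) (z : Pool.GEN.PtT F → V) (z' : Pool.GEN.LnT F → V)
        (G₁ G₂ : V → MvPolynomial (Option (Fin m)) ℝ) (cc : Pool.GEN.LnT F → C),
        Θ J F A₁ V C z z' G₁ G₂ cc)) :
    Pool.W.V1E.SlHU S c r D Dw Dr N N₂ R C a Eb ε₀ η₀ χ mb Pt o lv be (1 / (4 * K₄)) (8 * K₄) (Pool.ALT.XiF Θ w) := by
  have hK0 : 0 < K₄ := by linarith
  have hnw := Pool.W.ALT.nwc_BU (Ψ := Pool.ALT.Fm2.lab Θ) (N := N) (C := C) (a := a) (Pt := Pt) (ε₀ := ε₀) (Eb := Eb)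
    (Dr := Dr) (be := be) (κ := 1 / 4) (R := R) hpos hc
    hN hKw hDr hKr hwo h03 ho3 hη₀ le_rfl hmb hχ hl0 hl0r
    (fun J F A V z z' G hG => by
      obtain ⟨C, G₁, cc, hG⟩ := hG
      exact hΘd J F A V C z z' G₁ G cc hG) hB0 hB3 hp hq hx0 hx3
  refine Pool.S6C.Bas.mono 0 (hex.and (Pool.V1E.bas_big hnw K₄)) ?_
  rintro J - F B ⟨⟨A₁, hA₁, hPA, V, C', z, z', G₁, G₂, cc, hΘ⟩, w2⟩ b zz gc gT g₀ Gc H T TH Gt Ht W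
  have W' := W.res (κ₁ := 1 / K₄) (κ₂ := 1 / 4) hA₁ (by
    rw [one_div_mul_eq_div, div_le_iff₀ hK0, mul_comm]
    exact hPA) (by norm_num) (by
    rw [← one_div_mul_one_div])
  obtain ⟨B₂, hB₂, hPB, hN⟩ := w2 A₁ hA₁ hPA V z z' G₂ ⟨C', G₁, cc, hΘ⟩ b zz gc gT g₀ Gc H T TH Gt
    Ht W'
  refine ⟨B₂, _, _, fun ω hω => hA₁ ω (hB₂ ω hω), ?_, hN, V, C', z, z', G₁, G₂, cc,
    hΘs J F A₁ B₂ V C' z z' G₁ G₂ cc hB₂ hΘ, fun ω hω => ?_⟩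
  · calc Pool.K2S.Pe F.p B ≤ K₄ * Pool.K2S.Pe F.p A₁ := hPA
      _ ≤ K₄ * (8 * Pool.K2S.Pe F.p B₂) := mul_le_mul_of_nonneg_left hPB hK0.le
      _ = 8 * K₄ * Pool.K2S.Pe F.p B₂ := by ring
  · show G₂ (z (Pool.PB.ptr F J ω)) = _
    rw [(hΘd J F A₁ V C' z z' G₁ G₂ cc hΘ).2.2 ω (hB₂ ω hω)]

end Pool.W.ALT
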