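import Pool.Agent.H92.ALT.Jn4
import Pool.Agent.H31.W.H80.ASB.Cb1
import Pool.Agent.H31.W.H92.ALT.Jn2
import Pool.Agent.H31.W.H92.ALT.Jn3
import Pool.Agent.H31.W1.H91.FR.QpG
import Pool.Agent.H57.SWC.Lx
import Pool.Agent.H57.SWC.Lxa

/-!
# The last coordinate at the windows with a family of small rate

`VbP`: the velocity over the natural labels of a family of small rate, for the kinds
`one, one, k; stp`. `cbN_thin`, `cbN_u`: `CbN` from `VbP`, for `u` thin of slope less than the slope of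
the last coordinate, and for `u` with closed labels of its tubes.
-/

set_option autoImplicit false

namespace Pool.W.ASM

open Pool.ASM

open MeasureTheory Set Filter Topology
open Pool.GEN Pool.PKG Pool.SW Pool.ALT
open Pool.LA91 (FaQ sumQ HerQ her_sum her_fa aePG_fa aePG_sum)
open Pool.ONE (Ext0 Ext)
open Pool.MIC6
open Pool.V0F (LbU ChUQ AttUQ her_chU aePG_chU her_attU aePG_attU)

/-- **The velocity over the natural labels of a family of small rate**, for the kinds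
`one, one, k; stp` and the slopes with `Φ`. -/
def VbP (k : Pool.PKG.Kg) (Φ : (ℕ → ℝ) → Prop) : Prop :=
  ∃ (ι : Type) (_ : Countable ι) (Q : Pool.PKG.PropG 4 ι), Pool.W.PKG.AePG 4 Q ∧ Pool.LA91.HerQ Q ∧
    ∀ h : ℝ, 0 < h → h ≤ 1 → ∀ Sl : ℕ → ℝ, Pool.ASM.SlB k Sl → Φ Sl →
      ∀ hb : ℝ, 0 < hb → hb ≤ 1 → ∀ y a : ℝ, 3 / 2 ≤ y → y + 1 / 2 ≤ a → Sl 3 + 1 ≤ a →
        Pool.W.ALT.VbY 2 y a h hb Sl (Pool.PKG.kg4 .one .one k .stp) Q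

/-- **Closed labels of the tubes of the place 2**, for the slopes with `Φ`. -/
def HuP (k : Pool.PKG.Kg) (Φ : (ℕ → ℝ) → Prop) : Prop :=
  ∀ h : ℝ, 0 < h → h ≤ 1 → ∀ Sl : ℕ → ℝ, Pool.ASM.SlB k Sl → Φ Sl →
    ∃ y a : ℝ, 3 / 2 ≤ y ∧ y + 1 / 2 ≤ a ∧ Sl 3 + 1 ≤ a ∧
      Pool.W.PKG.HuR 4 2 y a h Sl (Pool.PKG.kg4 .one .one k .stp)


/-- **The last coordinate at the windows with a family of small rate**, `u` thin of smaller slope. -/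
theorem cbN_thin {Φ : (ℕ → ℝ) → Prop} (hΦ : ∀ Sl, Φ Sl → Sl 2 < Sl 3) (H : Pool.W.ASM.VbP .thin Φ) :
    Pool.W.ASM.CbN .thin Φ := by
  obtain ⟨ι, hι, Q, h1, h2, H⟩ := H
  refine ⟨(ι ⊕ (Unit ⊕ Unit)) ⊕ (ℕ × ℕ × ℚ × ℚ), inferInstance,
    Pool.LA91.sumQ (Pool.LA91.sumQ Q (Pool.LA91.sumQ (Pool.W.V0F.ChUQ : Pool.PKG.PropG 4 Unit) (Pool.V0F.AttUQ : Pool.PKG.PropG 4 Unit))) Pool.W.LA91.FaQ,
    Pool.W.LA91.aePG_sum (Pool.W.LA91.aePG_sum h1 h2 (Pool.W.LA91.aePG_sum (Pool.W.V0F.aePG_chU 4) (Pool.W.V0F.her_chU 4) (Pool.W.V0F.aePG_attU 4)))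
      (Pool.LA91.her_sum h2 (Pool.LA91.her_sum (Pool.W.V0F.her_chU 4) (Pool.V0F.her_attU 4))) (Pool.W.LA91.aePG_fa 4),
    Pool.LA91.her_sum (Pool.LA91.her_sum h2 (Pool.LA91.her_sum (Pool.W.V0F.her_chU 4) (Pool.V0F.her_attU 4))) (Pool.W.LA91.her_fa 4), ?_⟩
  intro h hh hh1 Sl hS hΦS β' hβ D
  have hlt := hΦ Sl hΦS
  have s2 := hS.thin rfl
  have s3 := hS.s3
  obtain ⟨b, hbd⟩ : ∃ b : ℝ, b = Sl 3 := ⟨_, rfl⟩
  obtain ⟨s, hsd⟩ : ∃ s : ℝ, s = Sl 2 := ⟨_, rfl⟩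
  rw [← hbd, ← hsd] at hlt
  rw [← hbd] at hβ s3
  rw [← hsd] at s2
  obtain ⟨hb, hb0, hb1, hbβ⟩ := Pool.ASM.hb_of (by linarith) hβ
  obtain ⟨y, hy⟩ : ∃ y : ℝ, y = max (3 / 2) ((b - 1) / (b - s)) := ⟨_, rfl⟩
  have hy1 : 3 / 2 ≤ y := by rw [hy]; exact le_max_left _ _
  have hy2 : b - 1 ≤ y * (b - s) := by
    have : (b - 1) / (b - s) ≤ y := by rw [hy]; exact le_max_right _ _
    rwa [div_le_iff₀ (by linarith)] at this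
  obtain ⟨a, ha⟩ : ∃ a : ℝ, a = max (max (y + 1 / 2) (b + 1)) (b - 1 + (s - 1) * y) := ⟨_, rfl⟩
  have ha1 : y + 1 / 2 ≤ a := by rw [ha]; exact (le_max_left _ _).trans (le_max_left _ _)
  have ha2 : b + 1 ≤ a := by rw [ha]; exact (le_max_right _ _).trans (le_max_left _ _)
  have ha3 : b - 1 + (s - 1) * y ≤ a := by rw [ha]; exact le_max_right _ _
  rw [hbd] at ha2 hbβ
  have hv := Pool.W.ALT.svNY_B (r := 2) (W := Pool.PKG.TruW 4) (Dv := D) (β' := β') (hb := hb) rfl rfl hb0 hb1 hbβ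
    (by rw [← hbd]; linarith) hy1 ha1 ha2 (by rw [← hbd, ← hsd]; exact hy2)
    (by rw [← hbd, ← hsd]; exact ha3) (H h hh hh1 Sl hS hΦS hb hb0 hb1 y a hy1 ha1 ha2)
  have hz := Pool.W.PKG.celZ_ny (m := 4) (r := 2) (by norm_num) (by norm_num) (fun l hl => by
    interval_cases l <;> rfl) (show Pool.PKG.Kg.thin ≠ Pool.PKG.Kg.any from fun h => nomatch h) rfl
    (by rw [← hsd]; linarith) (by rw [← hbd]; linarith) hy1 ha1 ha2 hv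
  rw [Pool.W.ASM.admN_eq]
  exact hz.mono id fun _ _ _ _ _ _ _ _ _ _ _ hZ => ⟨trivial, hZ⟩

/-- **The last coordinate at the windows with a family of small rate**, for `u` with closed labels of
its tubes. -/
theorem cbN_u {k : Pool.PKG.Kg} {Φ : (ℕ → ℝ) → Prop} (hk : k ≠ .any) (hs : ∀ Sl, Pool.ASM.SlB k Sl → 1 ≤ Sl 2)
    (hU : Pool.W.ASM.HuP k Φ) (H : Pool.W.ASM.VbP k Φ) : Pool.W.ASM.CbN k Φ := by
  obtain ⟨ι, hι, Q, h1, h2, H⟩ := H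
  refine ⟨(ι ⊕ (Unit ⊕ Unit)) ⊕ (ℕ × ℕ × ℚ × ℚ), inferInstance,
    Pool.LA91.sumQ (Pool.LA91.sumQ Q (Pool.LA91.sumQ (Pool.W.V0F.ChUQ : Pool.PKG.PropG 4 Unit) (Pool.V0F.AttUQ : Pool.PKG.PropG 4 Unit))) Pool.W.LA91.FaQ,
    Pool.W.LA91.aePG_sum (Pool.W.LA91.aePG_sum h1 h2 (Pool.W.LA91.aePG_sum (Pool.W.V0F.aePG_chU 4) (Pool.W.V0F.her_chU 4) (Pool.W.V0F.aePG_attU 4)))
      (Pool.LA91.her_sum h2 (Pool.LA91.her_sum (Pool.W.V0F.her_chU 4) (Pool.V0F.her_attU 4))) (Pool.W.LA91.aePG_fa 4),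
    Pool.LA91.her_sum (Pool.LA91.her_sum h2 (Pool.LA91.her_sum (Pool.W.V0F.her_chU 4) (Pool.V0F.her_attU 4))) (Pool.W.LA91.her_fa 4), ?_⟩
  intro h hh hh1 Sl hS hΦS β' hβ D
  have s3 := hS.s3
  obtain ⟨y, a, hy1, ha1, ha2, hU⟩ := hU h hh hh1 Sl hS hΦS
  obtain ⟨hb, hb0, hb1, hbβ⟩ := Pool.ASM.hb_of (by linarith) hβ
  have hv := Pool.W.ALT.svNU_B (r := 2) (W := Pool.PKG.TruW 4) (Dv := D) (β' := β') (hb := hb) hb0 hb1 hbβ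
    (by linarith) (H h hh hh1 Sl hS hΦS hb hb0 hb1 y a hy1 ha1 ha2)
  have hz := Pool.W.PKG.celZ_nyu (m := 4) (r := 2) (by norm_num) (by norm_num) (fun l hl => by
    interval_cases l <;> rfl) hk rfl (hs Sl hS) s3 hy1 ha1 ha2 hv hU
  rw [Pool.W.ASM.admN_eq]
  exact hz.mono id fun _ _ _ _ _ _ _ _ _ _ _ hZ => ⟨trivial, hZ⟩

end Pool.W.ASM
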