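import Pool.Agent.H92.ALT.Jn5
import Pool.Agent.H31.W.H42.D2.Nqc
import Pool.Agent.H31.W.H80.NYU.HuS
import Pool.Agent.H31.W.H92.ALT.Jn4
import Pool.Agent.H31.W1.H91.FR.QpG
import Pool.Agent.H57.SWC.Lx

/-!
# The last coordinate has no drop at the windows with a family of small rate

`vbP`: `VbP` for all kinds and slopes. `cbN_thin'`, `cbN_stp`, `cbN_sta`: the last coordinate steep
over two coordinates of slope one and a coordinate `u` thin of smaller slope, steep, or static.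
-/

set_option autoImplicit false

namespace Pool.W.ASM

open Pool.ASM

open MeasureTheory Set Filter Topology
open Pool.GEN Pool.PKG Pool.SW Pool.ALT
open Pool.LA91 (FaQ sumQ HerQ her_sum her_fa aePG_fa aePG_sum)
open Pool.MIC6
open Pool.V0F (LbU ChUQ AttUQ her_chU aePG_chU her_attU aePG_attU)

/-- **The velocity over the natural labels of a family of small rate**, all kinds and slopes. -/
theorem vbP (k : Pool.PKG.Kg) (Φ : (ℕ → ℝ) → Prop) : Pool.W.ASM.VbP k Φ := by
  refine ⟨Unit ⊕ Unit, inferInstance, Pool.LA91.sumQ (Pool.W.V0F.ChUQ : Pool.PKG.PropG 4 Unit) (Pool.V0F.AttUQ : Pool.PKG.PropG 4 Unit),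
    Pool.W.LA91.aePG_sum (Pool.W.V0F.aePG_chU 4) (Pool.W.V0F.her_chU 4) (Pool.W.V0F.aePG_attU 4), Pool.LA91.her_sum (Pool.W.V0F.her_chU 4) (Pool.V0F.her_attU 4), ?_⟩
  intro h _ _ Sl hS _ hb hb0 hb1 y a _ _ _
  have h3 := hS.s3
  exact Pool.W.ALT.vbY_of (r := 2) (by norm_num) (fun l hl => by interval_cases l <;> rfl)
    (show 1 < Sl 3 by linarith) hb0 hb1

/-- **Closed labels of the tubes** of the place 2, steep or static. -/
theorem huP {k : Pool.PKG.Kg} (hk : k = .stp ∨ k = .sta) (Φ : (ℕ → ℝ) → Prop) : Pool.W.ASM.HuP k Φ := by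
  intro h _ _ Sl hS _
  have h3 := hS.s3
  refine ⟨3 / 2, Sl 3 + 1, le_rfl, by linarith, le_rfl, ?_⟩
  exact Pool.W.PKG.hur_ss (m := 4) (r := 2) (by norm_num) (by norm_num)
    (fun l hl => by interval_cases l <;> rfl) (show k = .stp ∨ k = .sta from hk) (by norm_num)
    (by linarith)

/-- **`u` thin of smaller slope.** -/
theorem cbN_thin' : Pool.W.ASM.CbN .thin (fun Sl => Sl 2 < Sl 3) :=
  Pool.W.ASM.cbN_thin (fun _ h => h) (Pool.W.ASM.vbP _ _)

/-- **`u` steep.** -/
theorem cbN_stp : Pool.W.ASM.CbN .stp (fun _ => True) :=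
  Pool.W.ASM.cbN_u (by intro h; cases h) (fun Sl hS => by have := hS.stp rfl; linarith) (Pool.W.ASM.huP (Or.inl rfl) _)
    (Pool.W.ASM.vbP _ _)

/-- **`u` static.** -/
theorem cbN_sta : Pool.W.ASM.CbN .sta (fun _ => True) :=
  Pool.W.ASM.cbN_u (by intro h; cases h) (fun Sl hS => by have := hS.sta rfl; linarith) (Pool.W.ASM.huP (Or.inr rfl) _)
    (Pool.W.ASM.vbP _ _)

end Pool.W.ASM
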