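import Pool.Agent.H92.ALT.Sl8
import Pool.Agent.H31.W.H73.D2.Tnu

/-!
# The slope hypothesis with a closed gradient, any further windows

`recNy_slhN'`: as `recNy_slhN`, the numbers from a record with the four windows only.
-/

set_option autoImplicit false

namespace Pool.W.V1E

open Pool.V1E

open Finset Real MvPolynomial
open Pool.Agent.H49.Ent Pool.Agent.H32.Dense Pool.STK Pool.KA Pool.KSAT Pool.K2S Pool.PB Pool.S6C
open Pool.GEN Pool.CHT Pool.CHX Pool.ISO Pool.D2R Pool.D2G30 Pool.END18 Pool.D2Con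
open Pool.LBT (ThrOf)
open Pool.LEV (Law)

/-- **The slope hypothesis with a closed gradient** at one scale, from closed labels of `N`. -/
theorem recNy_slhN' (Dw r : ℕ) : ∃ CT : ℕ, ∀ {m : ℕ} {S : Pool.PB.PCl m}
    {P P₂ : List (Fin m) × Fin m → ℝ → ℝ → ℝ} {θ θ₂ : ℝ} {c : ℕ → Fin m}
    {Pt : ℝ → ℝ → ℝ} {R : ℕ → Prop} {S₂ D Du Dr : ℕ} {vw₀ vw : ℕ → ℝ}
    {su s y A k₁ K Eb e₂ ε q t C h X κ κ₁ K₃ K₄ : ℝ} {Ξ : Pool.V1E.XiN m},
    Pool.W.V1E.RecNy S P P₂ θ θ₂ c r Pt R S₂ 1 3 vw₀ su s y A k₁ K Eb e₂ ε q t → ∀ N₁ N₂ : ℕ, 1 ≤ N₁ → 3 ≤ N₂ →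
    1 ≤ su → 1 < s → 1 ≤ C → 0 < h → 3 * C * ε < h → 10 * (C * h) < X → X ≤ 1 / 4 →
    D ≤ Dw → Du ≤ Dw →
    (∀ (J : ℕ) (F : Pool.KA.Fam m J) (B B' : F.Ω → Prop) g₀ G H Ht CL Cp, Pool.K2S.Sub B' B →
      Ξ J F B g₀ G H Ht CL Cp → Ξ J F B' g₀ G H Ht CL Cp) →
    0 < K₃ → 0 ≤ κ₁ → κ * K₃ ≤ κ₁ →
    Pool.W.V1E.SlHU S c r D Dw Dr N₁ N₂ R C (t + A * q) Eb (3 * ε * q) (h * q) (X * q) (s * q) Pt
      (fun k => t + Pool.V1E.vG y k₁ vw k * q)
      (fun k l => Pool.ISO.lvN P c (r + 1) Pt l (t + Pool.V1E.vG y k₁ vw k * q) (t + Pool.V1E.vG y k₁ vw k * q))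
      (fun k l => Pool.CHT.bet P c l (t + A * q) (t + Pool.V1E.vG y k₁ vw k * q)) κ K₃ Ξ →
    Pool.W.V1E.HnB S c r D Du Dr N₁ N₂ R C (t + A * q) Eb (3 * ε * q) (h * q) (X * q) (s * q) Pt
      (fun k => t + Pool.V1E.vG y k₁ vw k * q)
      (fun k l => Pool.ISO.lvN P c (r + 1) Pt l (t + Pool.V1E.vG y k₁ vw k * q) (t + Pool.V1E.vG y k₁ vw k * q))
      (fun k l => Pool.CHT.bet P c l (t + A * q) (t + Pool.V1E.vG y k₁ vw k * q)) κ₁ K₄ Ξ →
    Pool.W.V1E.SlHU S c r D Dw Dr N₁ N₂ R C (t + A * q) Eb (3 * ε * q) (h * q) (X * q) (s * q) Pt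
      (fun k => t + Pool.V1E.vG y k₁ vw k * q)
      (fun k l => Pool.ISO.lvN P c (r + 1) Pt l (t + Pool.V1E.vG y k₁ vw k * q) (t + Pool.V1E.vG y k₁ vw k * q))
      (fun k l => Pool.CHT.bet P c l (t + A * q) (t + Pool.V1E.vG y k₁ vw k * q)) κ (K₃ * K₄)
      (fun J F B g₀ G H Ht CL Cp => Ξ J F B g₀ G H Ht CL Cp ∧
        Pool.V1E.XiCl c r Dw CT (X * q) (s * q) (fun k => t + Pool.V1E.vG y k₁ vw k * q)
        (fun k l => Pool.ISO.lvN P c (r + 1) Pt l (t + Pool.V1E.vG y k₁ vw k * q) (t + Pool.V1E.vG y k₁ vw k * q))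
        J F B g₀ G H Ht CL Cp) := by
  obtain ⟨CT, hcl⟩ := Pool.W.V1E.slhN_cl Dw r
  refine ⟨CT, ?_⟩
  intro m S P P₂ θ θ₂ c Pt Rr S₂ D Du Dr vw₀ vw su s y A k₁ K Eb e₂ ε q t C h X κ κ₁ K₃ K₄ Ξ R
    N₁ N₂ hN₁ hN₂ hsu hs hC hh hε1 hhX hX4 hDw hDu hXs hK₃ hκ₁ hκ hSl hU
  have hC0 : 0 < C := by linarith
  have a4 : h ≤ C * h := le_mul_of_one_le_left hh.le hC
  have hXp : 0 < X := by
    have : 0 < C * h := by positivity
    linarith
  have hq := R.q0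
  have hε0 := R.ε0
  have hkk := R.kk
  have hkK := R.kK
  obtain ⟨hy1, hyA, hsA⟩ := R.yA
  have hsq : q < s * q := lt_mul_of_one_lt_left hq hs
  have hyq : 3 / 2 * q ≤ y * q := mul_le_mul_of_nonneg_right hy1 hq.le
  have hyAq : y * q + q / 2 ≤ A * q := by
    have := mul_le_mul_of_nonneg_right hyA hq.le
    linarith
  have hsAq : s * q + q ≤ A * q := by
    have := mul_le_mul_of_nonneg_right hsA hq.le
    linarith
  have hk1q : A * q + q ≤ k₁ * q := by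
    have := mul_le_mul_of_nonneg_right hkk hq.le
    linarith
  have hKq : 2 * (A * q) + k₁ * q + 4 * q ≤ K * q := by
    have := mul_le_mul_of_nonneg_right hkK hq.le
    linarith
  have hsy : s * q + y * q ≤ s * (y * q) + q := by
    have h1 : 0 ≤ (s - 1) * (y - 1) * q :=
      mul_nonneg (mul_nonneg (by linarith) (by linarith)) hq.le
    nlinarith
  have hsuy : su * q + y * q ≤ su * (y * q) + q := by
    have h1 : 0 ≤ (su - 1) * (y - 1) * q :=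
      mul_nonneg (mul_nonneg (by linarith) (by linarith)) hq.le
    nlinarith
  have hεq : 0 ≤ ε * q := mul_nonneg hε0 hq.le
  have hεq3 : 3 * (ε * q) ≤ h * q := by
    have h1 : ε ≤ C * ε := le_mul_of_one_le_left hε0 hC
    have := mul_le_mul_of_nonneg_right (show 3 * ε ≤ h by linarith) hq.le
    linarith
  have hhq : 0 < h * q := mul_pos hh hq
  have b3 : 4 * (X * q) ≤ q := by
    have := mul_le_mul_of_nonneg_right hX4 hq.le
    linarith
  have b4 : h * q ≤ C * (h * q) := by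
    have := mul_le_mul_of_nonneg_right a4 hq.le
    linarith
  have b7 : 10 * (C * (h * q)) < X * q := by
    have := mul_lt_mul_of_pos_right hhX hq
    linarith
  obtain ⟨o, ho⟩ : ∃ o : ℕ → ℝ, o = fun k => t + Pool.V1E.vG y k₁ vw k * q := ⟨_, rfl⟩
  have hoE : ∀ k, o k = t + Pool.V1E.vG y k₁ vw k * q := fun k => by rw [ho]
  have o2 : o 2 = t - k₁ * q := by rw [hoE 2]; simp [Pool.V1E.vG]; ring
  have o0 : o 0 = t := by rw [hoE 0]; simp [Pool.V1E.vG]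
  have o3 : o 3 = t + q := by rw [hoE 3]; simp [Pool.V1E.vG]
  have o1 : o 1 = t + y * q := by rw [hoE 1]; simp [Pool.V1E.vG]
  obtain ⟨a, ha⟩ : ∃ a : ℝ, a = t + A * q := ⟨_, rfl⟩
  have R2 : ∀ k ≤ 1, o k ≤ Pt (o k) (o k) ∧ a ≤ Pt a (o k) := fun k hk => by
    have h1 := R.low k hk
    have h2 : Pool.V1E.vG y k₁ vw₀ k = Pool.V1E.vG y k₁ vw k := by interval_cases k <;> simp [Pool.V1E.vG]
    rw [h2] at h1
    rw [hoE k, ha]
    exact h1
  have R3 := R.stp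
  have R5 := R.beu
  have hot : ∀ k, t + Pool.V1E.vG y k₁ vw k * q = o k := fun k => by rw [ho]
  have hot2 : (fun k => t + Pool.V1E.vG y k₁ vw k * q) = o := ho.symm
  rw [hot2] at hU hSl ⊢
  simp only [hot, ← ha] at R3 R5 hU hSl ⊢
  have hlr : ∀ x y : ℝ, Pool.ISO.lvN P c (r + 1) Pt (r + 1) x y = Pt x y := fun x y => by
    unfold Pool.ISO.lvN
    rw [if_neg (lt_irrefl (r + 1))]
  have hbx : ∀ k ≤ 3, |o k - t| ≤ K * q := by
    intro k hk
    rw [abs_le]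
    interval_cases k
    · rw [o0]; constructor <;> linarith
    · rw [o1]; constructor <;> linarith
    · rw [o2]; constructor <;> linarith
    · rw [o3]; constructor <;> linarith
  have hax : |a - t| ≤ K * q := by
    rw [abs_le, ha]
    constructor <;> linarith
  have ht0 := R.t0
  have ht1 := R.t1
  have hlt := R.lvr
  have e1 := abs_le.1 (hlt (o 3) (hbx 3 (by norm_num)))
  have e2 := abs_le.1 (hlt (o 1) (hbx 1 (by norm_num)))
  have e3 := abs_le.1 (R.lvu (o 3) (hbx 3 (by norm_num)))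
  have e4 := abs_le.1 (R.lvu (o 1) (hbx 1 (by norm_num)))
  have hsuq : q ≤ su * q := le_mul_of_one_le_left hq.le hsu
  rw [o3] at e1 e3
  rw [o1] at e2 e4
  have R20 := R2 0 (by omega)
  have R21 := R2 1 le_rfl
  rw [o0] at R20
  rw [o1] at R21
  refine hcl (m := m) (S := S) (c := c) (Pt := Pt) (a := a)
    (Eb := Eb) (ε₀ := 3 * ε * q) (η₀ := h * q) (χ := X * q) (mb := s * q) (κ := κ) (ζ := h * q)
    (o := o) (κ₁ := κ₁)
    hN₁ hN₂ hDw hDu R.inj R.rgh hC hhq ?_ ?_ ?_ ?_ ?_ ?_ ?_ ?_ ?_ hhq.le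
    ?_ ?_ ?_ ?_ ?_ ?_ ?_ hXs hK₃ hκ₁ hκ hSl hU
  · rw [o0]; linarith
  · rw [hlr, o1]; linarith
  · rw [o1]; linarith
  · linarith
  · intro hR
    have := R5 hR
    rw [o1]
    linarith
  · rw [o2, o0, o3]; linarith
  · rw [o0, o3]; linarith
  · rw [o0, o3]; linarith
  · rw [o1, o3]; linarith
  · linarith
  · intro k hk j hj
    have k0 := abs_le.1 (R.lv j hj (o k) (hbx k hk))
    rw [o0, abs_le]
    constructor <;> linarith
  · rw [o0, o3]
    linarith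
  · rw [o1, o3]
    linarith
  · rw [hlr, hlr, o0, o3]
    linarith
  · rw [hlr, hlr, o0, o3, o1]
    linarith
  · rw [hlr, o0, o3]
    linarith

end Pool.W.V1E
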