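import Pool.Agent.H92.ALT.Jn6
import Pool.Agent.H31.W.H42.D2.Nqc
import Pool.Agent.H31.W.H42.D2.Nrc
import Pool.Agent.H31.W.H73.D2.Tno
import Pool.Agent.H31.W.H73.D2.Tnr
import Pool.Agent.H31.W.H92.ALT.Sl7
import Pool.Agent.H31.W.H92.ALT.Sl8
import Pool.Agent.H3.W.Bas
import Pool.Agent.H57.SWC.Lx
import Pool.Agent.H57.SWC.Lxa
import Pool.Agent.H57.SWC.Lxm

/-!
# The end for a steep coordinate over a thin one of larger slope

`svNC_B`: `SvNC` under `LowE`, from `VbYb`.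
-/

set_option autoImplicit false

namespace Pool.W.ALT

open Pool.ALT

open Finset Real MvPolynomial
open Pool.Agent.H49.Ent Pool.Agent.H32.Dense Pool.STK Pool.KA Pool.KSAT Pool.K2S Pool.PB Pool.S6C
  Pool.GEN Pool.RCD Pool.LA91 Pool.OWN68 Pool.PKG
open Pool.CHT Pool.CHX Pool.ISO Pool.D2R Pool.D2G30 Pool.V1E Pool.CR99 Pool.GRW
open Pool.UNJ (ceI)
open Pool.GRD (LbP)
open Pool.PN18 (Fm2)
open Pool.V0F (LbU ChUQ AttUQ)

/-- **The end for a steep coordinate over a thin one of larger slope, when a family of labels has small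
rate.** -/
theorem svNC_B {r : ℕ} (hr : 1 ≤ r) {y a h hb β' : ℝ} {Sl : ℕ → ℝ} {κ : ℕ → Pool.PKG.Kg} {ι : Type}
    {Q : Pool.PKG.PropG (r + 2) ι} {W : Pool.PKG.PropW (r + 2)} {Dv : ℕ} (hκ : ∀ l < r, κ l = .one)
    (hκu : κ r = .thin) (hκt : κ (r + 1) = .stp) (hb0 : 0 < hb) (hb1 : hb ≤ 1)
    (hβ : β' ≤ (1 - hb) * Sl (r + 1) * Real.log 2) (hs : 1 < Sl (r + 1))
    (hab : Sl (r + 1) < Sl r) (hy : 3 / 2 ≤ y) (hya : y + 1 / 2 ≤ a) (hsa : Sl (r + 1) + 1 ≤ a)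
    (hV : Pool.W.ALT.VbYb r y a h hb Sl κ Q) :
    Pool.W.PKG.SvNC (r + 2) r y a h Sl κ (Pool.LA91.sumQ Q (Pool.LA91.sumQ (Pool.W.V0F.ChUQ : Pool.PKG.PropG (r + 2) Unit)
      (Pool.V0F.AttUQ : Pool.PKG.PropG (r + 2) Unit)))
      (fun e : Pool.ALT.PosR => Pool.PKG.AndW W (Pool.ALT.LowE (Pool.W.ALT.AdmL (r + 2)) β' Dv e)) := by
  classical
  intro al hal K₀ hK₀ S₀ hS₀
  obtain ⟨Kr, Nr, Ar, Vr, hKr, hAV, hV⟩ := hV al hal K₀ hK₀ S₀ hS₀
  obtain ⟨D₀, hD₀, halo⟩ := Pool.W.ALT.alo_rec r S₀ hS₀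
  -- the earlier window and the radius of its rows
  obtain ⟨v₁, hv₁⟩ : ∃ v₁ : ℝ, v₁ = (Sl (r + 1) - 1) / (Sl r - Sl (r + 1)) := ⟨_, rfl⟩
  have hv₁0 : 0 ≤ v₁ := by
    rw [hv₁]
    exact div_nonneg (by linarith) (by linarith)
  have hv₁1 : Sl (r + 1) - 1 ≤ (Sl r - Sl (r + 1)) * v₁ := by
    rw [hv₁, mul_div_cancel₀ _ (by linarith : Sl r - Sl (r + 1) ≠ 0)]
  obtain ⟨y₁, hy₁e⟩ : ∃ y₁ : ℝ, y₁ = max (Sl (r + 1)) (v₁ + 1) := ⟨_, rfl⟩
  have hy₁b : Sl (r + 1) ≤ y₁ := by rw [hy₁e]; exact le_max_left _ _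
  have hy₁v : v₁ + 1 ≤ y₁ := by rw [hy₁e]; exact le_max_right _ _
  obtain ⟨Rw, hRw⟩ : ∃ Rw : ℝ, Rw =
      max (y + 1) ((Sl (r + 1) - 1) * y + (Sl (r + 1) - 2) * v₁) := ⟨_, rfl⟩
  have hRw1 : y + 1 ≤ Rw := by rw [hRw]; exact le_max_left _ _
  have hRw2 : (Sl (r + 1) - 1) * y + (Sl (r + 1) - 2) * v₁ ≤ Rw := by
    rw [hRw]
    exact le_max_right _ _
  have ha0 : 0 < a := by linarith
  -- the pairs
  obtain ⟨Ap, hAp⟩ : ∃ Ap : ℕ → ℝ, Ap = fun k => if k = 0 then a else if k = 1 then a else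
    if k = 2 then 1 else Rw := ⟨_, rfl⟩
  obtain ⟨Vp, hVp⟩ : ∃ Vp : ℕ → ℝ, Vp = fun k => if k = 0 then 0 else if k = 1 then y else
    if k = 2 then 0 else if k = 3 then -v₁ else y := ⟨_, rfl⟩
  have ap0 : Ap 0 = a := by rw [hAp]; norm_num
  have ap1 : Ap 1 = a := by rw [hAp]; norm_num
  have ap2 : Ap 2 = 1 := by rw [hAp]; norm_num
  have ap3 : Ap 3 = Rw := by rw [hAp]; norm_num
  have ap4 : Ap 4 = Rw := by rw [hAp]; norm_num
  have vp0 : Vp 0 = 0 := by rw [hVp]; norm_num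
  have vp1 : Vp 1 = y := by rw [hVp]; norm_num
  have vp2 : Vp 2 = 0 := by rw [hVp]; norm_num
  have vp3 : Vp 3 = -v₁ := by rw [hVp]; norm_num
  have vp4 : Vp 4 = y := by rw [hVp]; norm_num
  obtain ⟨Km, hKm⟩ : ∃ Km : ℝ, Km = max (max Kr Rw) (max a v₁) := ⟨_, rfl⟩
  have m1 : Kr ≤ Km := by rw [hKm]; exact (le_max_left _ _).trans (le_max_left _ _)
  have m2 : Rw ≤ Km := by rw [hKm]; exact (le_max_right _ _).trans (le_max_left _ _)
  have m3 : a ≤ Km := by rw [hKm]; exact (le_max_left _ _).trans (le_max_right _ _)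
  have m4 : v₁ ≤ Km := by rw [hKm]; exact (le_max_right _ _).trans (le_max_right _ _)
  have hpp : ∀ k < 5, -Km ≤ Vp k ∧ Vp k ≤ Ap k ∧ Ap k ≤ Km := by
    intro k hk
    interval_cases k
    · rw [ap0, vp0]
      exact ⟨by linarith, by linarith, m3⟩
    · rw [ap1, vp1]
      exact ⟨by linarith, by linarith, m3⟩
    · rw [ap2, vp2]
      exact ⟨by linarith, by linarith, by linarith⟩
    · rw [ap3, vp3]
      exact ⟨by linarith, by linarith, m2⟩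
    · rw [ap4, vp4]
      exact ⟨by linarith, by linarith, m2⟩
  refine ⟨Km, Nr + 5, Pool.PKG.cmb Nr Ar Ap, Pool.PKG.cmb Nr Vr Vp, hKr.trans m1, fun k hk => ?_,
    fun S₂ hS₂ D hD => ?_⟩
  · rcases Nat.lt_or_ge k Nr with h1 | h1
    · rw [Pool.PKG.cmb_l h1, Pool.PKG.cmb_l h1]
      obtain ⟨h2, h3, h4⟩ := hAV k h1
      exact ⟨by linarith, h3, by linarith⟩
    · obtain ⟨j, rfl⟩ : ∃ j, k = Nr + j := ⟨k - Nr, by omega⟩
      rw [Pool.PKG.cmb_r, Pool.PKG.cmb_r]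
      exact hpp j (by omega)
  obtain ⟨D₁, hV⟩ := hV S₂ hS₂ D hD
  obtain ⟨Du, hDu, hhn⟩ := Pool.W.PKG.hn_rec (r + 2) r S₂ hr (hS₀.trans hS₂)
  obtain ⟨Db, hDb⟩ : ∃ Db : ℕ, Db = max (max (max D D₀) (max D₁ Dv)) Du := ⟨_, rfl⟩
  have hDb0 : max (max D D₀) (max D₁ Dv) ≤ Db := by rw [hDb]; exact le_max_left _ _
  have hDb1 : D ≤ Db := ((le_max_left _ _).trans (le_max_left _ _)).trans hDb0
  have hDb2 : D₀ ≤ Db := ((le_max_right _ _).trans (le_max_left _ _)).trans hDb0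
  have hDb3 : D₁ ≤ Db := ((le_max_left _ _).trans (le_max_right _ _)).trans hDb0
  have hDb4 : Dv ≤ Db := ((le_max_right _ _).trans (le_max_right _ _)).trans hDb0
  have hDb5 : Du ≤ Db := by rw [hDb]; exact le_max_right _ _
  have hDbK : D ≤ Db * max 1 Db := hDb1.trans (Nat.le_mul_of_pos_right _ (by simp))
  obtain ⟨Dr₀, hV⟩ := hV Db hDb1 hDb3
  refine ⟨max Dr₀ (Db * max 1 Db), hDbK.trans (le_max_right _ _), fun C hC => ?_⟩
  obtain ⟨C₁, hC₁, hhn⟩ := hhn D hD C hC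
  have hC₁0 : 0 < C₁ := by linarith
  obtain ⟨Dw₀, hV⟩ := hV _ (le_max_left Dr₀ (Db * max 1 Db)) C hC
  obtain ⟨Dw, hDw⟩ : ∃ Dw : ℕ, Dw = max (max Dw₀ (Db * max 1 Db)) Du := ⟨_, rfl⟩
  have hDw1 : Dw₀ ≤ Dw := by rw [hDw]; exact (le_max_left _ _).trans (le_max_left _ _)
  have hDw2 : Db * max 1 Db ≤ Dw := by rw [hDw]; exact (le_max_right _ _).trans (le_max_left _ _)
  have hDw3 : Du ≤ Dw := by rw [hDw]; exact le_max_right _ _
  obtain ⟨CT, hCT⟩ := Pool.W.V1E.recNy_slhN' Dw r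
  refine ⟨Dw, CT, hDbK.trans hDw2, fun δ X₀ hδ hδ1 hX₀ => ?_⟩
  obtain ⟨lam, rr, gg, dt, ℓ₀, kf₀, X₁, hlam, hrr, hgg, hdt, hℓ₀, hX₁, hly, hV⟩ :=
    hV _ hDw1 δ X₀ hδ hδ1 hX₀ y₁ hy₁b
  obtain ⟨b, hbd⟩ : ∃ b : ℝ, b = Sl (r + 1) := ⟨_, rfl⟩
  rw [← hbd] at hβ hs hly
  have hbp : 0 < b := by linarith
  have hy₁ : 0 < y₁ := by linarith
  have hby : 0 < b * y₁ := mul_pos hbp hy₁
  obtain ⟨g₂, hg₂⟩ : ∃ g₂ : ℝ, g₂ = y₁ - v₁ := ⟨_, rfl⟩
  have hg₂1 : 1 ≤ g₂ := by linarith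
  have hbg : b * 1 ≤ b * g₂ := mul_le_mul_of_nonneg_left hg₂1 hbp.le
  obtain ⟨X, hX⟩ : ∃ X : ℝ, X = min (min X₀ X₁) (1 / 4) := ⟨_, rfl⟩
  have hX0 : 0 < X := by rw [hX]; exact lt_min (lt_min hX₀ hX₁) (by norm_num)
  have hXa : X ≤ X₀ := by rw [hX]; exact (min_le_left _ _).trans (min_le_left _ _)
  have hXb : X ≤ X₁ := by rw [hX]; exact (min_le_left _ _).trans (min_le_right _ _)
  have hXc4 : X ≤ 1 / 4 := by rw [hX]; exact min_le_right _ _
  have hXc : X ≤ 1 := by linarith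
  obtain ⟨R, hR⟩ : ∃ R : ℝ, R = max (1 + y₁) ((rr + gg) / b) := ⟨_, rfl⟩
  have hR1 : 1 + y₁ ≤ R := by rw [hR]; exact le_max_left _ _
  have hR2 : rr + gg ≤ b * R := by
    have : (rr + gg) / b ≤ R := by rw [hR]; exact le_max_right _ _
    rw [div_le_iff₀ hbp] at this
    linarith
  have hR0 : 0 < R := by linarith
  obtain ⟨ℓ, h₁, ε₁, e₁, hℓ, hℓ₁, hh₁, hε₁, he₁, halo⟩ := halo Db hDb2 (b := b) (h := hb)
    (δ := dt) (lam := lam) (rr := rr) (gg := gg) (R := R) (K₁ := K₀) (ℓ₀ := ℓ₀) (X := X / 4)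
    (g₂ := g₂) hbp hb0 hb1 hdt hlam hrr hgg hR0.le hK₀.le hℓ₀ (by linarith) (by linarith)
    (by linarith)
  obtain ⟨kf, hkf⟩ : ∃ kf : ℝ, kf = max kf₀ b := ⟨_, rfl⟩
  obtain ⟨h₂, hh₂, hV⟩ := hV ℓ X kf hℓ hℓ₁ hX0 hXb (by rw [hkf]; exact le_max_left _ _)
  have hC0 : 0 < C := by linarith
  refine ⟨⟨e₁, he₁⟩, kf, X, min h₁ (min h₂ (min (X / (20 * C)) (X / C₁))), by
    rw [← hbd, hkf]
    exact le_max_right _ _, hX0, hXa, by positivity, fun hh k₁ hhh hhl hk1 hk2 => ?_⟩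
  have hhl1 := hhl.trans (min_le_left _ _)
  have hhl2 := hhl.trans ((min_le_right _ _).trans (min_le_left _ _))
  have hhl3 := hhl.trans ((min_le_right _ _).trans ((min_le_right _ _).trans (min_le_left _ _)))
  have hhl4 := hhl.trans ((min_le_right _ _).trans ((min_le_right _ _).trans (min_le_right _ _)))
  rw [le_div_iff₀ (by positivity)] at hhl3 hhl4
  obtain ⟨K₁, Nv, Vv, ns, vs, hVv, hvs, hV⟩ := hV hh k₁ hhh hhl2 hk1 hk2
  -- the windows
  obtain ⟨Va, hVa⟩ : ∃ Va : ℕ → ℝ, Va = fun k => if k < Nv then Vv k else if k = Nv then -y₁ else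
    if k = Nv + 1 then 0 else if k = Nv + 2 then 1 else if k = Nv + 3 then -v₁ else -k₁ := ⟨_, rfl⟩
  have v0 : ∀ k < Nv, Va k = Vv k := fun k hk => by rw [hVa]; simp only [hk, if_true]
  have v1 : Va Nv = -y₁ := by rw [hVa]; simp
  have v2 : Va (Nv + 1) = 0 := by rw [hVa]; simp
  have v3 : Va (Nv + 2) = 1 := by rw [hVa]; simp
  have v4 : Va (Nv + 3) = -v₁ := by rw [hVa]; simp
  have v5 : Va (Nv + 4) = -k₁ := by rw [hVa]; simp
  obtain ⟨K₂, hK₂⟩ : ∃ K₂ : ℝ, K₂ = max (max K₁ (R + 1)) (max (K₀ + 1)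
    (max Rw (2 * a + k₁ + 4))) := ⟨_, rfl⟩
  have hKa : K₁ ≤ K₂ := by rw [hK₂]; exact (le_max_left _ _).trans (le_max_left _ _)
  have hKb : R + 1 ≤ K₂ := by rw [hK₂]; exact (le_max_right _ _).trans (le_max_left _ _)
  have hKd : K₀ + 1 ≤ K₂ := by rw [hK₂]; exact (le_max_left _ _).trans (le_max_right _ _)
  have hKe : Rw ≤ K₂ := by
    rw [hK₂]
    exact (le_max_left _ _).trans ((le_max_right _ _).trans (le_max_right _ _))
  have hKf : 2 * a + k₁ + 4 ≤ K₂ := by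
    rw [hK₂]
    exact (le_max_right _ _).trans ((le_max_right _ _).trans (le_max_right _ _))
  have hVaK : ∀ k < Nv + 5, -K₂ ≤ Va k ∧ Va k ≤ K₂ := by
    intro k hk
    rcases Nat.lt_or_ge k Nv with h1 | h1
    · rw [v0 k h1]
      obtain ⟨h2, h3⟩ := hVv k h1
      exact ⟨by linarith, by linarith⟩
    · obtain ⟨j, rfl⟩ : ∃ j, k = Nv + j := ⟨k - Nv, by omega⟩
      have hj : j < 5 := by omega
      interval_cases j
      · rw [Nat.add_zero, v1]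
        exact ⟨by linarith, by linarith⟩
      · rw [v2]
        exact ⟨by linarith, by linarith⟩
      · rw [v3]
        exact ⟨by linarith, by linarith⟩
      · rw [v4]
        exact ⟨by linarith, by linarith⟩
      · rw [v5]
        exact ⟨by linarith, by linarith⟩
  refine ⟨K₂, Nv + 5, Va, ns, vs, hVaK, fun j hj => ?_, fun K' hK' => ?_⟩
  · obtain ⟨h2, h3⟩ := hvs j hj
    exact ⟨by linarith, h3⟩
  obtain ⟨ε₀, hε₀, hV⟩ := hV K' (hKa.trans hK')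
  refine ⟨min ε₀ (min ε₁ (min (X / 16) (min (hh / C₁) (hh / (6 * C))))), by positivity,
    fun ε hε hεε => ?_⟩
  have hεa := hεε.trans (min_le_left _ _)
  have hεb := hεε.trans ((min_le_right _ _).trans (min_le_left _ _))
  have hεc := hεε.trans ((min_le_right _ _).trans ((min_le_right _ _).trans (min_le_left _ _)))
  have hεd := hεε.trans ((min_le_right _ _).trans ((min_le_right _ _).trans
    ((min_le_right _ _).trans (min_le_left _ _))))
  have hεe := hεε.trans ((min_le_right _ _).trans ((min_le_right _ _).trans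
    ((min_le_right _ _).trans (min_le_right _ _))))
  rw [le_div_iff₀ (by positivity)] at hεd hεe
  intro S g₀ P θ P₂ θ₂ Eb e₂ c Pt rt L T G g hG hg hder hZ
  obtain ⟨-, i₀, ⟨a1, a2, a3, a4, a5, a6, a7⟩, hiD, φ, k₂, hφ0, hφ, hrt⟩ := hZ
  have hK'0 : K₀ ≤ K' := by linarith
  have hK'p : 0 < K' := by linarith
  by_cases hpos : 0 < L (r + 1) g g
  swap
  · obtain ⟨q₁, hq₁, H⟩ := Pool.W.ALT.rec_pos (by omega : r + 1 < r + 2) (hder (r + 1) (by omega)) hK₀ hK'0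
      hpos
    exact ⟨fun _ => Sum.inr (Sum.inl ()), 0, fun _ => 0, fun _ => 1, fun j hj => by omega,
      fun k₀ _ => ⟨q₁, hq₁, fun q t x hq _ N A V N' V' R => (H hq R).elim⟩⟩
  by_cases hposu : 0 < L r g g
  swap
  · obtain ⟨q₁, hq₁, H⟩ := Pool.W.ALT.rec_pos (by omega : r < r + 2) (hder r (by omega)) hK₀ hK'0 hposu
    exact ⟨fun _ => Sum.inr (Sum.inl ()), 0, fun _ => 0, fun _ => 1, fun j hj => by omega,
      fun k₀ _ => ⟨q₁, hq₁, fun q t x hq _ N A V N' V' R => (H hq R).elim⟩⟩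
  have e1 : r + 2 - 1 = r + 1 := rfl
  have e2 : r + 2 - 2 = r := rfl
  rw [e1] at a1 a5 a6 a7
  rw [e2] at a2 a7
  obtain ⟨μ₁, d, hμ₁, hd, hmar⟩ := Pool.W.ALT.mar_lin (fun l hl => hder l (by omega)) (hder (r + 1) (by omega)) hpos
    hposu a5 a6 a7
  obtain ⟨p, M, B₀, B₁, hB, hV⟩ := hV ε hε hεa S g₀ P θ P₂ θ₂ Eb e₂ c Pt rt L T G g hG hg hder
  refine ⟨fun j => if j < M then Sum.inl (p j) else if j = M then Sum.inr (Sum.inl ()) else
    Sum.inr (Sum.inr ()), M + 2, fun j => if j < M then B₀ j else 0,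
    fun j => if j < M then B₁ j else 1, fun j hj => ?_, fun k₀ hk₀ => ?_⟩
  · by_cases h4 : j < M
    · simp only [h4, if_true]
      exact hB j h4
    · simp only [h4, if_false]
      exact one_pos
  have hch : Pool.W.V0F.ChUQ (n := r + 2) () (k₀ M) S P θ c Pt rt L T κ G g := by
    have h4 := hk₀ M (by omega)
    simp only [lt_irrefl, if_false, if_true] at h4
    exact h4
  have hat : Pool.V0F.AttUQ (n := r + 2) () (k₀ (M + 1)) S P θ c Pt rt L T κ G g := by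
    have h4 := hk₀ (M + 1) (by omega)
    simp only [show ¬ M + 1 < M by omega, show ¬ M + 1 = M by omega, if_false] at h4
    exact h4
  obtain ⟨μ, hμ⟩ : ∃ μ : ℝ, μ = min μ₁ ((1 / 2) ^ k₀ (M + 1)) := ⟨_, rfl⟩
  have hμ0 : 0 < μ := by rw [hμ]; positivity
  have hμa : μ ≤ μ₁ := by rw [hμ]; exact min_le_left _ _
  have hμb : μ ≤ (1 / 2) ^ k₀ (M + 1) := by rw [hμ]; exact min_le_right _ _
  obtain ⟨q₁, hq₁, hV⟩ := hV k₀ (fun j hj => by
    have h4 := hk₀ j (by omega)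
    simp only [hj, if_true] at h4
    exact h4) μ hμ0
  have hKK : 0 < K' + K₀ := by linarith
  have hb8 : 0 < 8 * b + 8 * rr := by linarith
  have hKR : 0 < K₀ + R + 1 := by linarith
  refine ⟨min q₁ (min (min (d / (K' + K₀)) ((1 / 2) ^ k₂ / (K₀ + R + 1))) (min
    (μ / (8 * b + 8 * rr)) (min ((1 / 2) ^ k₀ (M + 1) / (K' + K₀)) μ))), by positivity,
    fun q t x hq hx N A V N' V' Rc hpr hwn N₁ N₂ vw hN1 hN12 hN2 hvw => ?_⟩
  have q1 := hq.trans_le (min_le_left _ _)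
  have q2 := hq.trans_le ((min_le_right _ _).trans ((min_le_left _ _).trans (min_le_left _ _)))
  have q3 := hq.trans_le ((min_le_right _ _).trans ((min_le_left _ _).trans (min_le_right _ _)))
  have q4 := hq.trans_le ((min_le_right _ _).trans ((min_le_right _ _).trans (min_le_left _ _)))
  have q5 := hq.trans_le ((min_le_right _ _).trans ((min_le_right _ _).trans
    ((min_le_right _ _).trans (min_le_left _ _))))
  have q6 := hq.trans_le ((min_le_right _ _).trans ((min_le_right _ _).trans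
    ((min_le_right _ _).trans (min_le_right _ _))))
  rw [lt_div_iff₀ hKK] at q2 q5
  rw [lt_div_iff₀ hKR] at q3
  rw [lt_div_iff₀ hb8] at q4
  have hq0 := Rc.q0
  -- the record with the windows `Va`
  have Ra := Rc.mono (K₁ := K') (ε₁ := ε) (N₁ := N) (A₁ := A) (V₁ := V) (N₁' := Nv + 5)
    (V₁' := Va) le_rfl le_rfl (fun k hk => ⟨k, hk, rfl, rfl⟩) (fun k hk => by
      obtain ⟨j, hj, e⟩ := hwn k hk
      exact ⟨j, hj, e.symm⟩)
  have hnear := Rc.near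
  have hVaA : ∀ k < Nv + 5, |Va k| ≤ K' := fun k hk => by
    obtain ⟨h2, h3⟩ := hVaK k hk
    exact abs_le.2 ⟨by linarith, by linarith⟩
  have hwd : ∀ k < Nv + 5, |t + Va k * q - g| ≤ (K' + K₀) * q := by
    intro k hk
    have h1 : |Va k * q| ≤ K' * q := by
      rw [abs_mul, abs_of_pos hq0]
      exact mul_le_mul_of_nonneg_right (hVaA k hk) hq0.le
    calc |t + Va k * q - g| = |(t - g) + Va k * q| := by congr 1; ring
      _ ≤ |t - g| + |Va k * q| := abs_add_le _ _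
      _ ≤ K₀ * q + K' * q := add_le_add hnear h1
      _ = (K' + K₀) * q := by ring
  have hmw : ∀ k < Nv + 5, μ ≤ L (r + 1) (t + Va k * q) (t + Va k * q) ∧
      μ ≤ L r (t + Va k * q) (t + Va k * q) ∧ Pool.SWC.Lx L r (t + Va k * q) + μ ≤ 1 ∧
      i₀.2.1 + L (r + 1) (t + Va k * q) (t + Va k * q) + μ ≤ 1 ∧
      i₀.2.2.2 + μ ≤ L (r + 1) (t + Va k * q) (t + Va k * q) ∧
      L (r + 1) (t + Va k * q) (t + Va k * q) + L r (t + Va k * q) (t + Va k * q) + μ ≤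
        1 + i₀.2.2.2 := by
    intro k hk
    obtain ⟨b1, b2, b3, b4, b5, b6⟩ := hmar (t + Va k * q) ((hwd k hk).trans (by linarith))
    exact ⟨by linarith, by linarith, by linarith, by linarith, by linarith, by linarith⟩
  have hqX : X / 4 * q ≤ μ := by
    have : X * q ≤ 1 * q := mul_le_mul_of_nonneg_right hXc hq0.le
    linarith
  have hXq0 : 0 < X / 4 * q := by positivity
  have hn0 : Nv < Nv + 5 := by omega
  have hn1 : Nv + 1 < Nv + 5 := by omega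
  have hn2 : Nv + 2 < Nv + 5 := by omega
  have hat' : ∀ k ≥ k₂, Pool.ALT.AltAt S ((range (r + 1)).image c) ((range r).image c) (c (r + 1))
      i₀.1.2.2 i₀.2.1 i₀.2.2.1 i₀.2.2.2 (fun w => L (r + 1) w w) g φ e₁ k := by
    intro k hk
    have h4 := hrt k hk
    rw [a1, a2] at h4
    exact h4
  obtain ⟨S₁, hs₁, R₁, Ψ, w, p₁, p₂, eN, uN, pN, pa₁, pa₂, ea, ua, pa, H⟩ := halo hh hhh hhl1 Ra
    hbd.symm (hKb.trans hK') hεb hVaA (fun k hk => by
      obtain ⟨rd, -, h2⟩ := hch _ (Ra.memG.2 k hk)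
      exact ⟨rd, h2⟩) (μ := μ) (fun k hk => by
      obtain ⟨rk, E, c1, c2, c3, c4, c5⟩ := hat _ (Ra.memG.2 k hk) ((hwd k hk).trans (by linarith))
      exact ⟨E, rk, c3, by
        have c4' : E + L (r + 1) (t + Va k * q) (t + Va k * q) ≤ 1 - (1 / 2) ^ k₀ (M + 1) := c4
        linarith, (hmw k hk).2.2.1, c5⟩) (x := g) (e₀ := i₀.2.1) (ρ₀ := i₀.2.2.1)
    (π₀ := i₀.2.2.2) (φ := φ) (e := e₁) (Kf := i₀.1.2.2) (k₁ := k₂) hnear (hiD.trans hDb4)
    he₁ le_rfl (hφ.trans hβ) hat' (by linarith) (by exact_mod_cast a4) (by exact_mod_cast a3) hμ0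
    (by linarith) (i := Nv) (j := Nv + 1) hn0 hn1 (by
      rw [v1, abs_neg, abs_of_pos hy₁]
      linarith) (by
      rw [v2, abs_zero]
      linarith) (by
      rw [v1, v2]
      linarith) (by
      rw [v1]
      have h1 : b * (R - -y₁) = b * R + b * y₁ := by ring
      linarith only [h1, hby, hR2]) (hmw Nv hn0).1 (by linarith [(hmw (Nv + 1) hn1).2.2.2.1])
    (by linarith [(hmw Nv hn0).2.2.2.2.1]) (by linarith [(hmw Nv hn0).2.2.2.2.2])
    (by linarith [(hmw (Nv + 1) hn1).2.2.2.2.2])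
  -- the velocity
  obtain ⟨S', Θ, hne, hs', hΘs, hΘn, hΘe, hVf⟩ := hV q t x q1 (fun j hj => by
      obtain ⟨h4, h5, h6, h7⟩ := hx j (by omega)
      simp only [hj, if_true] at h5 h6 h7
      exact ⟨h4, h5, h6, h7⟩) N A V (Nv + 5) Va S₁ hs₁ R₁ hVaA (fun k hk => by
      obtain ⟨j, hj, h4, h5⟩ := hpr k (by omega)
      rw [Pool.PKG.cmb_l hk] at h4 h5
      exact ⟨j, hj, h4, h5⟩)
    (fun k hk => ⟨k, by omega, v0 k hk⟩) N₁ N₂ vw hN1 hN12 hN2 hvw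
    Nv (Nv + 1) R g₂ (X / 4) i₀.2.1 i₀.2.2.2 Ψ w p₁ p₂ eN uN pN pa₁ pa₂ ea ua pa hn0 hn1 v1 v2
    (by linarith) H
  have hsub : Pool.ALT.SubC S' S := fun τ J F A h => hs₁ τ J F A (hs' τ J F A h)
  have R' := Rc.sub hne hsub
  have Ra' := Ra.sub hne hsub
  have hwe : t + Va Nv * q = t + -y₁ * q := by rw [v1]
  -- the blindness
  have hbl : ∀ k, k = Nv + 1 ∨ k = Nv + 2 ∨ k = Nv + 3 →
      Pool.ALT.BlB S' c r (c (r + 1)) (t + Va Nv * q) (t + Va k * q) Db Db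
        (L (r + 1) (t + Va k * q) (t + Va k * q) - 2 * (hh * q))
        (L r (t + Va k * q) (t + Va k * q) - 2 * (hh * q))
        (L r (t + Va k * q) (t + Va k * q) - L (r + 1) (t + Va k * q) (t + Va k * q) +
          X / 4 * q) (Pool.ALT.Fm2.lab Θ) := by
    intro k hk
    have hk4 : k < Nv + 5 := by omega
    have hVk : -v₁ ≤ Va k ∧ Va k ≤ 1 := by
      rcases hk with rfl | rfl | rfl
      · rw [v2]
        exact ⟨by linarith, by linarith⟩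
      · rw [v3]
        exact ⟨by linarith, by linarith⟩
      · rw [v4]
        exact ⟨by linarith, by linarith⟩
    obtain ⟨b1, b2, b3, b4, b5, b6⟩ := hmw k hk4
    have h1 := H.blb k hk4 (by rw [v1]; linarith) (abs_le.2 ⟨by linarith, by linarith⟩)
      (by linarith) hqX (by linarith) (by linarith) (by linarith)
    have h3 := Pool.ALT.blb_imp' h1 (Ψ' := Pool.ALT.Fm2.lab Θ) (fun J F A V z z' G hG => by
      obtain ⟨C', G₁, cc, h⟩ := hG
      exact hΘn J F A V C' z z' G₁ G cc h)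
    intro u1 u2 u3 u4
    exact (h3 u1 u2 u3 u4).sub hs'
  have hlog : 10 * (C * hh) < X := by
    have h1 : hh * (20 * C) = 2 * (10 * (C * hh)) := by ring
    have h2 : 0 < C * hh := mul_pos hC0 hhh
    linarith only [h1, h2, hhl3]
  have hwv : t + Va Nv * q ≤ t := by
    rw [v1]
    have h1 := mul_pos hy₁ hq0
    linarith only [h1]
  -- the slopes
  have hSl := Pool.W.ALT.slN_recU (Θ := Θ) (k₁ := k₁) (vw := vw) (y := y) (a := a) (Eb' := Eb (r + 1))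
    (ε' := 3 * ε * q) (Rg := fun l => κ l = .one ∨ κ l = .thin) (N₁ := N₁) (Dw := Dw)
    (Dr := max Dr₀ (Db * max 1 Db)) (Kd := Db * max 1 Db) R' hN2 hDw2
    (hDbK.trans (le_max_right _ _)) (le_max_right _ _) (by rw [← hbd]; linarith)
    (by linarith) hhh hC hlog hε.le (by linarith) hwv
    (fun J F A V C z z' G₁ G₂ cc hG => by
      have h1 := (hΘn J F A V C z z' G₁ G₂ cc hG).lb
      exact ⟨fun y => by
        have := h1.deg y
        rwa [max_self] at this, h1.dep, h1.cls⟩) hΘs (fun v hv => by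
      rcases hv with rfl | rfl
      · have := Pool.ALT.BlB.deg hDb1 hDb1 (hbl (Nv + 1) (Or.inl rfl))
        rwa [v2] at this
      · have := Pool.ALT.BlB.deg hDb1 hDb1 (hbl (Nv + 2) (Or.inr (Or.inl rfl)))
        rwa [v3] at this) le_rfl (Pool.S6C.Bas.mono 0 hΘe fun J _ F A hA => by
      obtain ⟨V, C', z, z', G₁, G₂, cc, h⟩ := hA
      exact ⟨A, fun _ h => h, by rw [one_mul], V, C', z, z', G₁, G₂, cc, h⟩)
  -- the closed labels of `N`
  obtain ⟨K₄, hK₄, hHn⟩ := hhn R' (by omega) hκ (Or.inl hκu) hκt (y := y) (a := a) (v₁ := v₁)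
    (au := Rw) (k₁ := k₁) (hh := hh) (X := X) (w := t + Va Nv * q) (vw := vw) (Θ := Θ) (D' := Db)
    (max Dr₀ (Db * max 1 Db)) N₁ N₂ hN1 hN2 hy hya hsa hk2 (by linarith only [hKf, hK']) hv₁0
    (by linarith only [hKb, hK', hR1, hy₁v]) hRw1 (by linarith only [hKe, hK']) hRw2 hv₁1 (by
      obtain ⟨j, hj, h4, h5⟩ := hpr (Nr + 0) (by omega)
      rw [Pool.PKG.cmb_r] at h4 h5
      exact ⟨j, hj, h4.trans ap0, h5.trans vp0⟩) (by
      obtain ⟨j, hj, h4, h5⟩ := hpr (Nr + 3) (by omega)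
      rw [Pool.PKG.cmb_r] at h4 h5
      exact ⟨j, hj, h4.trans ap3, h5.trans vp3⟩) (by
      obtain ⟨j, hj, h4, h5⟩ := hpr (Nr + 4) (by omega)
      rw [Pool.PKG.cmb_r] at h4 h5
      exact ⟨j, hj, h4.trans ap4, h5.trans vp4⟩) hhh hε.le (by linarith only [hεd])
    (by linarith only [hhl4]) (by linarith only [hhl4, hXc]) hDb5 (by
      have := hbl (Nv + 3) (Or.inr (Or.inr rfl))
      rwa [v4] at this) hΘs
  -- the four windows
  have hRf := R'.recNy (y := y) (a := a) (k₁ := k₁) (vw := fun _ => 0) (N₁ := 1) (N₂ := 3)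
    (Rg := fun l => κ l = .one ∨ κ l = .thin) (by omega) hκ (by rw [hκu]; exact fun h => nomatch h)
    hκt (fun l _ h => h) (fun l hl => Or.inl (hκ l hl)) (fun h => h.symm) le_rfl (by omega) le_rfl
    hy hya hsa hS₂ (fun k hk => by
      interval_cases k
      · obtain ⟨j, hj, h4, h5⟩ := hpr (Nr + 0) (by omega)
        rw [Pool.PKG.cmb_r] at h4 h5
        exact ⟨j, hj, h4.trans ap0, by rw [h5, vp0]; norm_num [Pool.V1E.vG]⟩
      · obtain ⟨j, hj, h4, h5⟩ := hpr (Nr + 1) (by omega)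
        rw [Pool.PKG.cmb_r] at h4 h5
        exact ⟨j, hj, h4.trans ap1, by rw [h5, vp1]; norm_num [Pool.V1E.vG]⟩)
    (fun k hk hk' => by
      obtain rfl | rfl : k = 2 ∨ k = 3 := by omega
      · obtain ⟨j, hj, h4⟩ := hwn (Nv + 4) (by omega)
        exact ⟨j, hj, by rw [h4, v5]; norm_num [Pool.V1E.vG]⟩
      · obtain ⟨j, hj, h4⟩ := hwn (Nv + 2) (by omega)
        exact ⟨j, hj, by rw [h4, v3]; norm_num [Pool.V1E.vG]⟩)
    (by
      obtain ⟨j, hj, h4, h5⟩ := hpr (Nr + 2) (by omega)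
      rw [Pool.PKG.cmb_r] at h4 h5
      exact ⟨j, hj, h4.trans ap2, h5.trans vp2⟩) hε.le
    (by linarith only [hεc, hXc]) (fun k hk hk' => by omega) (fun k hk hk' => by omega) hk2
    (by linarith only [hKf, hK'])
  -- the closed gradient
  have hXs : ∀ (J : ℕ) (F : Pool.KA.Fam (r + 2) J) (B B' : F.Ω → Prop) (g₀ : ℕ → ℕ → ℕ)
      (G : ℕ → Pool.GEN.PtT F → ℕ → MvPolynomial (Option (Fin (r + 2))) ℝ)
      (H : ℕ → Pool.GEN.LnT F → ℕ → MvPolynomial (Option (Fin (r + 2))) ℝ)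
      (Ht : ℕ → Pool.GEN.LnT F → MvPolynomial (Option (Fin (r + 2))) ℝ)
      (CL : Pool.GEN.LnT F → MvPolynomial (Option (Fin (r + 2))) ℝ)
      (Cp : Pool.GEN.PtT F → MvPolynomial (Option (Fin (r + 2))) ℝ), Pool.K2S.Sub B' B →
      Pool.ALT.XiF Θ (t + Va Nv * q) J F B g₀ G H Ht CL Cp →
      Pool.ALT.XiF Θ (t + Va Nv * q) J F B' g₀ G H Ht CL Cp := by
    rintro J F B B' g₀ G H Ht CL Cp hBB ⟨V, C', z, z', G₁, G₂, cc, h1, h2⟩
    exact ⟨V, C', z, z', G₁, G₂, cc, hΘs _ _ _ _ _ _ _ _ _ _ _ hBB h1, fun ω hω => h2 ω (hBB ω hω)⟩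
  refine ⟨S', fun J F B g₀ G H Ht CL Cp => Pool.ALT.XiF Θ (t + Va Nv * q) J F B g₀ G H Ht CL Cp ∧
    Pool.V1E.XiCl c r Dw CT (X * q) (Sl (r + 1) * q) (fun k => t + Pool.V1E.vG y k₁ vw k * q)
      (fun k l => Pool.ISO.lvN P c (r + 1) (L (r + 1)) l (t + Pool.V1E.vG y k₁ vw k * q) (t + Pool.V1E.vG y k₁ vw k * q))
      J F B g₀ G H Ht CL Cp, hsub, R', fun J F B g₀ G H Ht CL Cp h => h.2,
    ⟨1 / (4 * 1), 8 * 1 * K₄, by norm_num, by positivity, ?_⟩, fun κ' qf Pq h1 h2 h3 h4 => ?_⟩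
  · exact hCT hRf N₁ N₂ hN1 hN2 (by linarith only [hab, hs, hbd]) (by rw [← hbd]; exact hs) hC hhh
      (by
        have h1 : ε * (6 * C) = 2 * (3 * C * ε) := by ring
        have h2 : 0 < 3 * C * ε := by positivity
        linarith only [h1, h2, hεe]) hlog hXc4 (hDbK.trans hDw2) hDw3 hXs (by norm_num) (by norm_num : (0 : ℝ) ≤ 1 / (4 * 1) * (8 * 1))
      le_rfl hSl (hHn (1 / (4 * 1) * (8 * 1)))
  · obtain ⟨K₂, hK, hv⟩ := hVf κ' qf Pq h1 h2 h3 h4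
    exact ⟨K₂, hK, hv.xi fun J F B g₀ G H Ht CL Cp h => h.1⟩

end Pool.W.ALT
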