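import Pool.Agent.H92.ALT.Jn7
import Pool.Agent.H31.W.H92.ALT.Jn5
import Pool.Agent.H31.W.H92.ALT.Jn6
import Pool.Agent.H31.W1.H91.FR.QpG
import Pool.Agent.H57.SWC.Lx
import Pool.Agent.H57.SWC.Lxa

/-!
# The last coordinate has no drop at the windows with a family of small rate, `u` thin

`cbN_thin_gt`: `u` thin of larger slope. `cbN_thin_ne`: `u` thin, the slopes different.
-/

set_option autoImplicit false

namespace Pool.W.ASM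

open Pool.ASM

open MeasureTheory Set Filter Topology
open Pool.GEN Pool.PKG Pool.SW Pool.ALT
open Pool.LA91 (FaQ sumQ HerQ her_sum her_fa aePG_fa aePG_sum)
open Pool.MIC6
open Pool.V0F (LbU ChUQ AttUQ her_chU aePG_chU her_attU aePG_attU)

/-- **`u` thin of larger slope.** -/
theorem cbN_thin_gt : Pool.W.ASM.CbN .thin (fun Sl => Sl 3 < Sl 2) := by
  have hbQ : Pool.W.PKG.AePG 4 (Pool.LA91.sumQ (Pool.W.V0F.ChUQ : Pool.PKG.PropG 4 Unit) (Pool.V0F.AttUQ : Pool.PKG.PropG 4 Unit)) :=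
    Pool.W.LA91.aePG_sum (Pool.W.V0F.aePG_chU 4) (Pool.W.V0F.her_chU 4) (Pool.W.V0F.aePG_attU 4)
  have hhQ : Pool.LA91.HerQ (Pool.LA91.sumQ (Pool.W.V0F.ChUQ : Pool.PKG.PropG 4 Unit) (Pool.V0F.AttUQ : Pool.PKG.PropG 4 Unit)) :=
    Pool.LA91.her_sum (Pool.W.V0F.her_chU 4) (Pool.V0F.her_attU 4)
  refine ⟨((Unit ⊕ Unit) ⊕ (Unit ⊕ Unit)) ⊕ (ℕ × ℕ × ℚ × ℚ), inferInstance,
    Pool.LA91.sumQ (Pool.LA91.sumQ (Pool.LA91.sumQ (Pool.W.V0F.ChUQ : Pool.PKG.PropG 4 Unit) (Pool.V0F.AttUQ : Pool.PKG.PropG 4 Unit))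
      (Pool.LA91.sumQ (Pool.W.V0F.ChUQ : Pool.PKG.PropG 4 Unit) (Pool.V0F.AttUQ : Pool.PKG.PropG 4 Unit))) Pool.W.LA91.FaQ,
    Pool.W.LA91.aePG_sum (Pool.W.LA91.aePG_sum hbQ hhQ hbQ) (Pool.LA91.her_sum hhQ hhQ) (Pool.W.LA91.aePG_fa 4),
    Pool.LA91.her_sum (Pool.LA91.her_sum hhQ hhQ) (Pool.W.LA91.her_fa 4), ?_⟩
  intro h hh hh1 Sl hS hlt β' hβ D
  have s2 := hS.thin rfl
  have s3 := hS.s3
  obtain ⟨hb, hb0, hb1, hbβ⟩ := Pool.ASM.hb_of (by linarith) hβ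
  have hκ : ∀ l < 2, (Pool.PKG.kg4 .one .one .thin .stp) l = .one := fun l hl => by interval_cases l <;> rfl
  have hv := Pool.W.ALT.svNC_B (r := 2) (by norm_num) (y := 3 / 2) (a := Sl 3 + 1) (h := h) (W := Pool.PKG.TruW 4)
    (Dv := D) (β' := β') (hb := hb) (κ := Pool.PKG.kg4 .one .one .thin .stp) hκ rfl rfl hb0 hb1 hbβ
    (show 1 < Sl 3 by linarith) hlt le_rfl (by linarith) le_rfl
    (Pool.W.ALT.vbYb_of (r := 2) (by norm_num) hκ (show 1 < Sl 3 by linarith) hb0 hb1)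
  have hz := Pool.W.PKG.celZ_nyc (m := 4) (r := 2) (by norm_num) (by norm_num) hκ
    (show Pool.PKG.Kg.thin ≠ Pool.PKG.Kg.any from fun h => nomatch h) rfl (by linarith) s3 le_rfl (by linarith)
    le_rfl hv
  rw [Pool.W.ASM.admN_eq]
  exact hz.mono id fun _ _ _ _ _ _ _ _ _ _ _ hZ => ⟨trivial, hZ⟩

/-- **`u` thin, the slopes different.** -/
theorem cbN_thin_ne : Pool.W.ASM.CbN .thin (fun Sl => Sl 2 ≠ Sl 3) := by
  obtain ⟨ι, hι, Q, h1, h2, H⟩ := Pool.W.ASM.cbN_thin'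
  obtain ⟨ι', hι', Q', h1', h2', H'⟩ := Pool.W.ASM.cbN_thin_gt
  refine ⟨ι ⊕ ι', inferInstance, Pool.LA91.sumQ Q Q', Pool.W.LA91.aePG_sum h1 h2 h1', Pool.LA91.her_sum h2 h2', ?_⟩
  intro h hh hh1 Sl hS hne β' hβ D
  rcases lt_or_gt_of_ne hne with hlt | hlt
  · exact (H h hh hh1 Sl hS hlt β' hβ D).inl
  · exact (H' h hh hh1 Sl hS hlt β' hβ D).inr

end Pool.W.ASM
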