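import Pool.Agent.H92.ALT.Jt1
import Pool.Agent.H31.W.H42.D2.Nrc
import Pool.Agent.H31.W.H73.D2.Tmz
import Pool.Agent.H31.W.H73.D2.Tnp
import Pool.Agent.H31.W.H73.D2.Tnr
import Pool.Agent.H31.W.H92.ALT.Sl5
import Pool.Agent.H31.W.H92.ALT.Sl7
import Pool.Agent.H31.W.H92.ALT.Sl8
import Pool.Agent.H3.W.Bas

/-!
# The end for a steep coordinate, from a blind family and its velocity

`VbT`: a family of closed labels of an earlier window, blind at a list of windows, and the velocity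
over it. `svNU_T`: `SvNU` from `VbT`, any kind of `u`. `svNY_T`: `SvNY` from `VbT`, `u` of smaller
slope. `svNC_T`: `SvNC` from `VbT`, `u` of larger slope.
-/

set_option autoImplicit false

namespace Pool.W.ALT

open Pool.ALT

open Finset Real MvPolynomial
open Pool.Agent.H49.Ent Pool.Agent.H32.Dense Pool.STK Pool.KA Pool.KSAT Pool.K2S Pool.PB Pool.S6C
  Pool.GEN Pool.RCD Pool.LA91 Pool.OWN68 Pool.PKG
open Pool.CHT Pool.CHX Pool.ISO Pool.D2R Pool.D2G30 Pool.V1E Pool.CR99 Pool.GRW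
open Pool.UNJ (ceI)
open Pool.GRD (LbP)
open Pool.PN18 (Fm2)

/-- **A blind family and its velocity**: a family `Θ` of polynomials of the lines of a window
`w ≤ t`, of degree at most `Kd`, blind at the windows `t + bw k q`, `k < nb`, for the labels of
degree at most `Db`, and the velocity of `N - P` over it, under the hypothesis `Z lam` on the class,
at all scales of the record, in a subclass. -/
def VbT (r : ℕ) (y a h : ℝ) (nb : ℕ) (bw : ℕ → ℝ) (Sl : ℕ → ℝ) (κ : ℕ → Pool.PKG.Kg) {ι Λ : Type}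
    (Q : Pool.PKG.PropG (r + 2) ι) (Z : Pool.PKG.PropZ (r + 2) Λ) : Prop :=
  ∀ al : ℝ, 0 < al → ∀ K₀ : ℝ, 0 < K₀ → ∀ S₀ : ℕ, 1 ≤ S₀ →
  ∃ (Kr : ℝ) (Nr : ℕ) (Ar Vr : ℕ → ℝ), 1 ≤ Kr ∧ (∀ k < Nr, -Kr ≤ Vr k ∧ Vr k ≤ Ar k ∧ Ar k ≤ Kr) ∧
  ∀ S₂ : ℕ, S₀ ≤ S₂ → ∀ D : ℕ, 1 ≤ D → ∀ Db : ℕ, D ≤ Db → ∃ Dr₀ Kd : ℕ, ∀ Dr : ℕ, Dr₀ ≤ Dr →
  ∀ C : ℝ, 1 ≤ C → ∃ Dw₀ : ℕ, ∀ Dw : ℕ, Dw₀ ≤ Dw →
  ∀ δ X₀ : ℝ, 0 < δ → δ ≤ 1 → 0 < X₀ →
  ∃ (lam : Λ) (kf X h₁ : ℝ), Sl (r + 1) ≤ kf ∧ 0 < X ∧ X ≤ X₀ ∧ 0 < h₁ ∧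
  ∀ hh k₁ : ℝ, 0 < hh → hh ≤ h₁ → kf + 8 ≤ k₁ → a + 1 ≤ k₁ →
  ∃ (K₁ : ℝ) (Nv : ℕ) (Vv : ℕ → ℝ) (ns : ℕ) (vs : ℕ → ℝ), (∀ j < Nv, -K₁ ≤ Vv j ∧ Vv j ≤ K₁) ∧
  (∀ j < ns, -K₁ ≤ vs j ∧ vs j ≤ a - 1 / 2) ∧ ∀ K' : ℝ, K₁ ≤ K' →
  ∃ ε₀ : ℝ, 0 < ε₀ ∧ ∀ ε : ℝ, 0 < ε → ε ≤ ε₀ →
  ∀ (S : Pool.PB.PCl (r + 2)) (g₀ : ℝ → ℝ) (P : List (Fin (r + 2)) × Fin (r + 2) → ℝ → ℝ → ℝ)
    (θ : ℝ) (P₂ : ℕ → List (Fin (r + 2)) × Fin (r + 2) → ℝ → ℝ → ℝ) (θ₂ Eb e₂ : ℕ → ℝ)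
    (c : ℕ → Fin (r + 2)) (Pt : ℝ → ℝ → ℝ) (rt : ℝ → ℝ) (L T : ℕ → ℝ → ℝ → ℝ) (G : Set ℝ)
    (g : ℝ), IsClosed G → g ∈ G → (∀ l < r + 2, HasDerivAt (fun x => L l x x) (Sl l) g) →
    Z lam S P θ c Pt rt L T κ G g →
    ∃ (p : ℕ → ι) (M : ℕ) (B₀ B₁ : ℕ → ℝ),
    (∀ j < M, B₀ j < B₁ j) ∧ ∀ k₀ : ℕ → ℕ, (∀ j < M, Q (p j) (k₀ j) S P θ c Pt rt L T κ G g) →
    ∃ q₁ : ℝ, 0 < q₁ ∧ ∀ (q t : ℝ) (x : ℕ → ℝ),
      q < q₁ → (∀ j < M, x j ∈ G ∧ t + B₀ j * q ≤ x j ∧ x j ≤ t + B₁ j * q ∧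
        Q (p j) (k₀ j) S P θ c Pt rt L T κ G (x j)) →
      ∀ (N : ℕ) (A V : ℕ → ℝ) (N' : ℕ) (V' : ℕ → ℝ),
      Pool.W.PKG.RecG S al g₀ P θ P₂ θ₂ Eb e₂ c Pt rt h K₀ g L T Sl κ G S₀ N A V S₂ N' V' K' ε q t →
      (∀ k < Nr, ∃ j < N, A j = Ar k ∧ V j = Vr k) → (∀ k < Nv, ∃ j < N', V' j = Vv k) →
      ∀ (N₁ N₂ : ℕ) (vw : ℕ → ℝ), 1 ≤ N₁ → N₁ ≤ N₂ → 3 ≤ N₂ →
      (∀ k < ns, ∃ j, N₁ < j ∧ 4 ≤ j ∧ j ≤ N₂ ∧ vw j = vs k) →
      ∃ (S' : Pool.PB.PCl (r + 2)) (Θ : Pool.PN18.Fm2 (r + 2)) (w K₄ : ℝ), S'.Ne ∧ Pool.ALT.SubC S' S ∧ w ≤ t ∧ 1 ≤ K₄ ∧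
      (∀ (J : ℕ) (F : Pool.KA.Fam (r + 2) J) (A B : F.Ω → Prop) (V C : Type) (z : Pool.GEN.PtT F → V)
        (z' : Pool.GEN.LnT F → V) (G₁ G₂ : V → MvPolynomial (Option (Fin (r + 2))) ℝ) (cc : Pool.GEN.LnT F → C),
        Pool.K2S.Sub B A → Θ J F A V C z z' G₁ G₂ cc → Θ J F B V C z z' G₁ G₂ cc) ∧
      (∀ (J : ℕ) (F : Pool.KA.Fam (r + 2) J) (A : F.Ω → Prop) (V C : Type) (z : Pool.GEN.PtT F → V)
        (z' : Pool.GEN.LnT F → V) (G₁ G₂ : V → MvPolynomial (Option (Fin (r + 2))) ℝ) (cc : Pool.GEN.LnT F → C),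
        Θ J F A V C z z' G₁ G₂ cc →
        (∀ y, (G₂ y).totalDegree ≤ Kd) ∧ (∀ y, Pool.ALT.DpI ((range (r + 1)).image c) (G₂ y)) ∧
        ∀ ω, A ω → z (Pool.PB.ptr F J ω) = z' (Pool.KSAT.slam F ⌊w * J⌋₊ ω)) ∧
      Pool.S6C.Bas S' (fun J F A => ∃ A₁ : F.Ω → Prop, Pool.K2S.Sub A₁ A ∧ Pool.K2S.Pe F.p A ≤ K₄ * Pool.K2S.Pe F.p A₁ ∧
        ∃ (V C : Type) (z : Pool.GEN.PtT F → V) (z' : Pool.GEN.LnT F → V)
        (G₁ G₂ : V → MvPolynomial (Option (Fin (r + 2))) ℝ) (cc : Pool.GEN.LnT F → C),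
        Θ J F A₁ V C z z' G₁ G₂ cc) ∧
      (∀ k < nb, Pool.ALT.BlB S' c r (c (r + 1)) w (t + bw k * q) Db Db
        (L (r + 1) (t + bw k * q) (t + bw k * q) - 2 * (hh * q))
        (L r (t + bw k * q) (t + bw k * q) - 2 * (hh * q))
        (L r (t + bw k * q) (t + bw k * q) - L (r + 1) (t + bw k * q) (t + bw k * q) +
          X / 4 * q) (Pool.ALT.Fm2.lab Θ)) ∧
      ∀ (κ' : ℝ) (qf : ℕ → Fin r → ℕ) (Pq : Fin r → ℝ), 0 < κ' → κ' ≤ 1 →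
        (∀ i, (kf + 1) * q ≤ Pq i) → (∀ (J : ℕ) (i : Fin r), Pq i * J - 2 ≤ qf J i) →
        ∃ K₂ : ℝ, 0 < K₂ ∧
        Pool.W.V1E.VfNU S' c r D Dw Dr N₁ N₂ (fun l => κ l = .one ∨ κ l = .thin) C (t + a * q)
          (Eb (r + 1)) (3 * ε * q) (hh * q) (X * q) (Sl (r + 1) * q) (kf * q) (L (r + 1))
          (fun k => t + Pool.V1E.vG y k₁ vw k * q)
          (fun k l => Pool.ISO.lvN P c (r + 1) (L (r + 1)) l (t + Pool.V1E.vG y k₁ vw k * q) (t + Pool.V1E.vG y k₁ vw k * q))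
          (fun k l => Pool.CHT.bet P c l (t + a * q) (t + Pool.V1E.vG y k₁ vw k * q)) κ' qf δ K₂
          (Pool.ALT.XiF Θ w)

/-- **The end for a steep coordinate**, any kind of `u`, from a blind family. -/
theorem svNU_T {r : ℕ} {y a h : ℝ} {nb : ℕ} {bw : ℕ → ℝ} {Sl : ℕ → ℝ} {κ : ℕ → Pool.PKG.Kg} {ι Λ : Type}
    {Q : Pool.PKG.PropG (r + 2) ι} {Z : Pool.PKG.PropZ (r + 2) Λ} (hs : 1 < Sl (r + 1)) (hb0 : ∃ k < nb, bw k = 0)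
    (hb1 : ∃ k < nb, bw k = 1) (hV : Pool.W.ALT.VbT r y a h nb bw Sl κ Q Z) :
    Pool.W.PKG.SvNU (r + 2) r y a h Sl κ Q Z := by
  classical
  intro al hal K₀ hK₀ S₀ hS₀
  obtain ⟨Kr, Nr, Ar, Vr, hKr, hAV, hV⟩ := hV al hal K₀ hK₀ S₀ hS₀
  refine ⟨Kr, Nr, Ar, Vr, hKr, hAV, fun S₂ hS₂ D hD => ?_⟩
  obtain ⟨Dr₀, Kd, hV⟩ := hV S₂ hS₂ D hD D le_rfl
  refine ⟨max Dr₀ (max D Kd), (le_max_left _ _).trans (le_max_right _ _), fun C hC Du => ?_⟩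
  obtain ⟨Dw₀, hV⟩ := hV _ (le_max_left Dr₀ (max D Kd)) C hC
  obtain ⟨Dw, hDw⟩ : ∃ Dw : ℕ, Dw = max (max Dw₀ Du) (max D Kd) := ⟨_, rfl⟩
  have hDw1 : Dw₀ ≤ Dw := by rw [hDw]; exact (le_max_left _ _).trans (le_max_left _ _)
  have hDw2 : Du ≤ Dw := by rw [hDw]; exact (le_max_right _ _).trans (le_max_left _ _)
  have hDw3 : D ≤ Dw := by rw [hDw]; exact (le_max_left _ _).trans (le_max_right _ _)
  have hDw4 : Kd ≤ Dw := by rw [hDw]; exact (le_max_right _ _).trans (le_max_right _ _)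
  refine ⟨Dw, hDw3, hDw2, fun δ X₀ hδ hδ1 hX₀ => ?_⟩
  obtain ⟨lam, kf, X, h₁, hkf, hX0, hXX, hh₁, hV⟩ :=
    hV _ hDw1 δ (min X₀ 1) hδ hδ1 (lt_min hX₀ one_pos)
  have hXa : X ≤ X₀ := hXX.trans (min_le_left _ _)
  have hC0 : 0 < C := by linarith
  refine ⟨lam, kf, X, min h₁ (X / (20 * C)), hkf, hX0, hXa, by positivity,
    fun hh k₁ hhh hhl hk1 hk2 => ?_⟩
  have hhl1 := hhl.trans (min_le_left _ _)
  have hhl3 := hhl.trans (min_le_right _ _)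
  rw [le_div_iff₀ (by positivity)] at hhl3
  obtain ⟨K₁, Nv, Vv, ns, vs, hVv, hvs, hV⟩ := hV hh k₁ hhh hhl1 hk1 hk2
  refine ⟨max K₁ 1, Nv, Vv, ns, vs, fun j hj => ?_, fun j hj => ?_, fun K' hK' => ?_⟩
  · have m1 := le_max_left K₁ 1
    obtain ⟨h2, h3⟩ := hVv j hj
    exact ⟨by linarith, by linarith⟩
  · have m1 := le_max_left K₁ 1
    obtain ⟨h2, h3⟩ := hvs j hj
    exact ⟨by linarith, h3⟩
  have hK1 : 1 ≤ K' := (le_max_right _ _).trans hK'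
  obtain ⟨ε₀, hε₀, hV⟩ := hV K' ((le_max_left _ _).trans hK')
  refine ⟨min ε₀ (X / 16), by positivity, fun ε hε hεε => ?_⟩
  have hεa := hεε.trans (min_le_left _ _)
  have hεc := hεε.trans (min_le_right _ _)
  intro S g₀ P θ P₂ θ₂ Eb e₂ c Pt rt L T G g hG hg hder hZ
  obtain ⟨p, M, B₀, B₁, hB, hV⟩ := hV ε hε hεa S g₀ P θ P₂ θ₂ Eb e₂ c Pt rt L T G g hG hg hder hZ
  refine ⟨p, M, B₀, B₁, hB, fun k₀ hk₀ => ?_⟩
  obtain ⟨q₁, hq₁, hV⟩ := hV k₀ hk₀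
  refine ⟨q₁, hq₁, fun q t x hq hx N A V N' V' Rc hpr hwn N₁ N₂ vw hN1 hN12 hN2 hvw => ?_⟩
  obtain ⟨S', Θ, w, K₄, hne, hsub, hwt, hK₄, hΘs, hΘd, hΘe, hbl, hVf⟩ := hV q t x hq hx N A V N' V'
    Rc hpr hwn N₁ N₂ vw hN1 hN12 hN2 hvw
  have R' := Rc.sub hne hsub
  refine ⟨S', Pool.ALT.XiF Θ w, hsub, R', ⟨1 / (4 * K₄), 8 * K₄, by positivity, by positivity, ?_⟩, hVf⟩
  have hlog : 10 * (C * hh) < X := by
    have h1 : hh * (20 * C) = 2 * (10 * (C * hh)) := by ring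
    have h2 : 0 < C * hh := mul_pos hC0 hhh
    linarith only [h1, h2, hhl3]
  exact Pool.W.ALT.slN_recU (Θ := Θ) (k₁ := k₁) (vw := vw) (y := y) (a := a) (Eb' := Eb (r + 1))
    (ε' := 3 * ε * q) (Rg := fun l => κ l = .one ∨ κ l = .thin) (N₁ := N₁) (Dw := Dw)
    (Dr := max Dr₀ (max D Kd)) (Kd := Kd) R' hN2 hDw4
    ((le_max_left _ _).trans (le_max_right _ _)) ((le_max_right _ _).trans (le_max_right _ _))
    hs.le hK1 hhh hC hlog hε.le (by linarith) hwt hΘd hΘs (fun v hv => by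
      rcases hv with rfl | rfl
      · obtain ⟨k, hk, e⟩ := hb0
        have := hbl k hk
        rwa [e] at this
      · obtain ⟨k, hk, e⟩ := hb1
        have := hbl k hk
        rwa [e] at this) hK₄ hΘe

/-- **The end for a steep coordinate over a thin one of smaller slope**, from a blind family. -/
theorem svNY_T {r : ℕ} {y a h : ℝ} {nb : ℕ} {bw : ℕ → ℝ} {Sl : ℕ → ℝ} {κ : ℕ → Pool.PKG.Kg} {ι Λ : Type}
    {Q : Pool.PKG.PropG (r + 2) ι} {Z : Pool.PKG.PropZ (r + 2) Λ} (hκu : κ r = .thin)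
    (hκt : κ (r + 1) = .stp) (hy : 3 / 2 ≤ y)
    (hya : y + 1 / 2 ≤ a) (hsa : Sl (r + 1) + 1 ≤ a)
    (hys : Sl (r + 1) - 1 ≤ y * (Sl (r + 1) - Sl r))
    (has : Sl (r + 1) - 1 + (Sl r - 1) * y ≤ a) (hb0 : ∃ k < nb, bw k = 0)
    (hb1 : ∃ k < nb, bw k = 1) (hby : ∃ k < nb, bw k = y) (hV : Pool.W.ALT.VbT r y a h nb bw Sl κ Q Z) :
    Pool.W.PKG.SvNY (r + 2) r y a h Sl κ Q Z := by
  classical
  intro al hal K₀ hK₀ S₀ hS₀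
  obtain ⟨Kr, Nr, Ar, Vr, hKr, hAV, hV⟩ := hV al hal K₀ hK₀ S₀ hS₀
  have ha0 : 0 < a := by linarith
  refine ⟨max Kr a, Nr + 1, fun k => if k < Nr then Ar k else a,
    fun k => if k < Nr then Vr k else 0, hKr.trans (le_max_left _ _), fun k hk => ?_,
    fun S₂ hS₂ D hD => ?_⟩
  · have m1 := le_max_left Kr a
    have m2 := le_max_right Kr a
    by_cases hk' : k < Nr
    · simp only [hk', if_true]
      obtain ⟨h4, h5, h6⟩ := hAV k hk'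
      exact ⟨by linarith, h5, by linarith⟩
    · simp only [hk', if_false]
      exact ⟨by linarith, by linarith, by linarith⟩
  obtain ⟨Dr₀, Kd, hV⟩ := hV S₂ hS₂ D hD D le_rfl
  refine ⟨max Dr₀ (max D Kd), (le_max_left _ _).trans (le_max_right _ _), fun C hC => ?_⟩
  obtain ⟨Dw₀, hV⟩ := hV _ (le_max_left Dr₀ (max D Kd)) C hC
  refine ⟨max Dw₀ (max D Kd), (le_max_left _ _).trans (le_max_right _ _),
    fun δ X₀ hδ hδ1 hX₀ => ?_⟩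
  obtain ⟨lam, kf, X, h₁, hkf, hX0, hXX, hh₁, hV⟩ :=
    hV _ (le_max_left Dw₀ (max D Kd)) δ (min X₀ 1) hδ hδ1 (lt_min hX₀ one_pos)
  have hXa : X ≤ X₀ := hXX.trans (min_le_left _ _)
  have hX1 : X ≤ 1 := hXX.trans (min_le_right _ _)
  have hC0 : 0 < C := by linarith
  refine ⟨lam, kf, X, min h₁ (X / (20 * C)), hkf, hX0, hXa, by positivity,
    fun hh k₁ hhh hhl hk1 hk2 => ?_⟩
  have hhl1 := hhl.trans (min_le_left _ _)
  have hhl3 := hhl.trans (min_le_right _ _)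
  rw [le_div_iff₀ (by positivity)] at hhl3
  obtain ⟨K₁, Nv, Vv, ns, vs, hVv, hvs, hV⟩ := hV hh k₁ hhh hhl1 hk1 hk2
  refine ⟨max K₁ a, Nv, Vv, ns, vs, fun j hj => ?_, fun j hj => ?_, fun K' hK' => ?_⟩
  · have m1 := le_max_left K₁ a
    obtain ⟨h2, h3⟩ := hVv j hj
    exact ⟨by linarith, by linarith⟩
  · have m1 := le_max_left K₁ a
    obtain ⟨h2, h3⟩ := hvs j hj
    exact ⟨by linarith, h3⟩
  have hKa : a ≤ K' := (le_max_right _ _).trans hK'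
  obtain ⟨ε₀, hε₀, hV⟩ := hV K' ((le_max_left _ _).trans hK')
  refine ⟨min ε₀ (X / 16), by positivity, fun ε hε hεε => ?_⟩
  have hεa := hεε.trans (min_le_left _ _)
  have hεc := hεε.trans (min_le_right _ _)
  intro S g₀ P θ P₂ θ₂ Eb e₂ c Pt rt L T G g hG hg hder hZ
  obtain ⟨p, M, B₀, B₁, hB, hV⟩ := hV ε hε hεa S g₀ P θ P₂ θ₂ Eb e₂ c Pt rt L T G g hG hg hder hZ
  refine ⟨p, M, B₀, B₁, hB, fun k₀ hk₀ => ?_⟩
  obtain ⟨q₁, hq₁, hV⟩ := hV k₀ hk₀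
  refine ⟨q₁, hq₁, fun q t x hq hx N A V N' V' Rc hpr hwn N₁ N₂ vw hN1 hN12 hN2 hvw => ?_⟩
  obtain ⟨S', Θ, w, K₄, hne, hsub, hwt, hK₄, hΘs, hΘd, hΘe, hbl, hVf⟩ := hV q t x hq hx N A V N' V'
    Rc (fun k hk => by
      obtain ⟨j, hj, h4, h5⟩ := hpr k (by omega)
      simp only [hk, if_true] at h4 h5
      exact ⟨j, hj, h4, h5⟩) hwn N₁ N₂ vw hN1 hN12 hN2 hvw
  have R' := Rc.sub hne hsub
  refine ⟨S', Pool.ALT.XiF Θ w, hsub, R', ⟨1 / (4 * K₄), 8 * K₄, by positivity, by positivity, ?_⟩,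
    fun κ' qf Pq h1 h2 h3 h4 => by
      obtain ⟨K₂, hK, hv⟩ := hVf κ' qf Pq h1 h2 h3 h4
      exact ⟨K₂, hK, hv.toN⟩⟩
  have hlog : 10 * (C * hh) < X := by
    have h1 : hh * (20 * C) = 2 * (10 * (C * hh)) := by ring
    have h2 : 0 < C * hh := mul_pos hC0 hhh
    linarith only [h1, h2, hhl3]
  exact Pool.W.ALT.slN_rec (Θ := Θ) (k₁ := k₁) (vw := vw) (Dw := max Dw₀ (max D Kd))
    (Dr := max Dr₀ (max D Kd)) (Kd := Kd) R' hκu hκt hN1 hN2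
    ((le_max_right _ _).trans (le_max_right _ _)) ((le_max_left _ _).trans (le_max_right _ _))
    ((le_max_right _ _).trans (le_max_right _ _)) hy hya hsa hys has (by
      obtain ⟨j, hj, h4, h5⟩ := hpr Nr (by omega)
      simp only [lt_irrefl, if_false] at h4 h5
      exact ⟨j, hj, h4, h5⟩) hKa hhh hC hlog hX1 hε.le (by linarith) hwt hΘd hΘs (fun v hv => by
      rcases hv with rfl | rfl | rfl
      · obtain ⟨k, hk, e⟩ := hb0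
        have := hbl k hk
        rwa [e] at this
      · obtain ⟨k, hk, e⟩ := hb1
        have := hbl k hk
        rwa [e] at this
      · obtain ⟨k, hk, e⟩ := hby
        have := hbl k hk
        rwa [e] at this) hK₄ hΘe

/-- **The end for a steep coordinate over a thin one of larger slope**, from a blind family. -/
theorem svNC_T {r : ℕ} (hr : 1 ≤ r) {y a h v₁ : ℝ} {nb : ℕ} {bw : ℕ → ℝ} {Sl : ℕ → ℝ}
    {κ : ℕ → Pool.PKG.Kg} {ι Λ : Type} {Q : Pool.PKG.PropG (r + 2) ι} {Z : Pool.PKG.PropZ (r + 2) Λ}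
    (hκ : ∀ l < r, κ l = .one) (hκu : κ r = .thin) (hκt : κ (r + 1) = .stp)
    (hs : 1 < Sl (r + 1)) (hab : Sl (r + 1) < Sl r) (hy : 3 / 2 ≤ y) (hya : y + 1 / 2 ≤ a)
    (hsa : Sl (r + 1) + 1 ≤ a) (hv₁0 : 0 ≤ v₁) (hv₁1 : Sl (r + 1) - 1 ≤ (Sl r - Sl (r + 1)) * v₁)
    (hb0 : ∃ k < nb, bw k = 0) (hb1 : ∃ k < nb, bw k = 1) (hbv : ∃ k < nb, bw k = -v₁)
    (hV : Pool.W.ALT.VbT r y a h nb bw Sl κ Q Z) :
    Pool.W.PKG.SvNC (r + 2) r y a h Sl κ Q Z := by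
  classical
  intro al hal K₀ hK₀ S₀ hS₀
  obtain ⟨Kr, Nr, Ar, Vr, hKr, hAV, hV⟩ := hV al hal K₀ hK₀ S₀ hS₀
  have ha0 : 0 < a := by linarith
  obtain ⟨Rw, hRw⟩ : ∃ Rw : ℝ, Rw =
      max (y + 1) ((Sl (r + 1) - 1) * y + (Sl (r + 1) - 2) * v₁) := ⟨_, rfl⟩
  have hRw1 : y + 1 ≤ Rw := by rw [hRw]; exact le_max_left _ _
  have hRw2 : (Sl (r + 1) - 1) * y + (Sl (r + 1) - 2) * v₁ ≤ Rw := by
    rw [hRw]
    exact le_max_right _ _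
  -- the pairs
  obtain ⟨Ap, hAp⟩ : ∃ Ap : ℕ → ℝ, Ap = fun k => if k = 0 then a else if k = 1 then a else
    if k = 2 then 1 else Rw := ⟨_, rfl⟩
  obtain ⟨Vp, hVp⟩ : ∃ Vp : ℕ → ℝ, Vp = fun k => if k = 0 then 0 else if k = 1 then y else
    if k = 2 then 0 else if k = 3 then -v₁ else y := ⟨_, rfl⟩
  have ap0 : Ap 0 = a := by rw [hAp]; norm_num
  have ap1 : Ap 1 = a := by rw [hAp]; norm_num
  have ap2 : Ap 2 = 1 := by rw [hAp]; norm_num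
  have ap3 : Ap 3 = Rw := by rw [hAp]; norm_num
  have ap4 : Ap 4 = Rw := by rw [hAp]; norm_num
  have vp0 : Vp 0 = 0 := by rw [hVp]; norm_num
  have vp1 : Vp 1 = y := by rw [hVp]; norm_num
  have vp2 : Vp 2 = 0 := by rw [hVp]; norm_num
  have vp3 : Vp 3 = -v₁ := by rw [hVp]; norm_num
  have vp4 : Vp 4 = y := by rw [hVp]; norm_num
  obtain ⟨Km, hKm⟩ : ∃ Km : ℝ, Km = max (max Kr Rw) (max a v₁) := ⟨_, rfl⟩
  have m1 : Kr ≤ Km := by rw [hKm]; exact (le_max_left _ _).trans (le_max_left _ _)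
  have m2 : Rw ≤ Km := by rw [hKm]; exact (le_max_right _ _).trans (le_max_left _ _)
  have m3 : a ≤ Km := by rw [hKm]; exact (le_max_left _ _).trans (le_max_right _ _)
  have m4 : v₁ ≤ Km := by rw [hKm]; exact (le_max_right _ _).trans (le_max_right _ _)
  have hpp : ∀ k < 5, -Km ≤ Vp k ∧ Vp k ≤ Ap k ∧ Ap k ≤ Km := by
    intro k hk
    interval_cases k
    · rw [ap0, vp0]
      exact ⟨by linarith, by linarith, m3⟩
    · rw [ap1, vp1]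
      exact ⟨by linarith, by linarith, m3⟩
    · rw [ap2, vp2]
      exact ⟨by linarith, by linarith, by linarith⟩
    · rw [ap3, vp3]
      exact ⟨by linarith, by linarith, m2⟩
    · rw [ap4, vp4]
      exact ⟨by linarith, by linarith, m2⟩
  refine ⟨Km, Nr + 5, Pool.PKG.cmb Nr Ar Ap, Pool.PKG.cmb Nr Vr Vp, hKr.trans m1, fun k hk => ?_,
    fun S₂ hS₂ D hD => ?_⟩
  · rcases Nat.lt_or_ge k Nr with h1 | h1
    · rw [Pool.PKG.cmb_l h1, Pool.PKG.cmb_l h1]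
      obtain ⟨h2, h3, h4⟩ := hAV k h1
      exact ⟨by linarith, h3, by linarith⟩
    · obtain ⟨j, rfl⟩ : ∃ j, k = Nr + j := ⟨k - Nr, by omega⟩
      rw [Pool.PKG.cmb_r, Pool.PKG.cmb_r]
      exact hpp j (by omega)
  obtain ⟨Du, hDu, hhn⟩ := Pool.W.PKG.hn_rec (r + 2) r S₂ hr (hS₀.trans hS₂)
  obtain ⟨Db, hDb⟩ : ∃ Db : ℕ, Db = max D Du := ⟨_, rfl⟩
  have hDb1 : D ≤ Db := by rw [hDb]; exact le_max_left _ _
  have hDb5 : Du ≤ Db := by rw [hDb]; exact le_max_right _ _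
  obtain ⟨Dr₀, Kd, hV⟩ := hV S₂ hS₂ D hD Db hDb1
  refine ⟨max Dr₀ (max Db Kd), hDb1.trans ((le_max_left _ _).trans (le_max_right _ _)),
    fun C hC => ?_⟩
  obtain ⟨C₁, hC₁, hhn⟩ := hhn D hD C hC
  have hC₁0 : 0 < C₁ := by linarith
  obtain ⟨Dw₀, hV⟩ := hV _ (le_max_left Dr₀ (max Db Kd)) C hC
  obtain ⟨Dw, hDw⟩ : ∃ Dw : ℕ, Dw = max Dw₀ (max Db Kd) := ⟨_, rfl⟩
  have hDw1 : Dw₀ ≤ Dw := by rw [hDw]; exact le_max_left _ _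
  have hDw2 : Db ≤ Dw := by rw [hDw]; exact (le_max_left _ _).trans (le_max_right _ _)
  have hDw3 : Kd ≤ Dw := by rw [hDw]; exact (le_max_right _ _).trans (le_max_right _ _)
  obtain ⟨CT, hCT⟩ := Pool.W.V1E.recNy_slhN' Dw r
  refine ⟨Dw, CT, hDb1.trans hDw2, fun δ X₀ hδ hδ1 hX₀ => ?_⟩
  obtain ⟨lam, kf, X, h₁, hkf, hX0, hXX, hh₁, hV⟩ :=
    hV _ hDw1 δ (min X₀ (1 / 4)) hδ hδ1 (lt_min hX₀ (by norm_num))
  have hXa : X ≤ X₀ := hXX.trans (min_le_left _ _)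
  have hXc4 : X ≤ 1 / 4 := hXX.trans (min_le_right _ _)
  have hXc : X ≤ 1 := by linarith
  have hC0 : 0 < C := by linarith
  refine ⟨lam, kf, X, min h₁ (min (X / (20 * C)) (X / C₁)), hkf, hX0, hXa, by positivity,
    fun hh k₁ hhh hhl hk1 hk2 => ?_⟩
  have hhl1 := hhl.trans (min_le_left _ _)
  have hhl3 := hhl.trans ((min_le_right _ _).trans (min_le_left _ _))
  have hhl4 := hhl.trans ((min_le_right _ _).trans (min_le_right _ _))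
  rw [le_div_iff₀ (by positivity)] at hhl3 hhl4
  obtain ⟨K₁, Nv, Vv, ns, vs, hVv, hvs, hV⟩ := hV hh k₁ hhh hhl1 hk1 hk2
  -- the windows
  obtain ⟨Va, hVa⟩ : ∃ Va : ℕ → ℝ, Va = fun k => if k < Nv then Vv k else if k = Nv then 1
    else -k₁ := ⟨_, rfl⟩
  have v0 : ∀ k < Nv, Va k = Vv k := fun k hk => by rw [hVa]; simp only [hk, if_true]
  have v1 : Va Nv = 1 := by rw [hVa]; simp
  have v2 : Va (Nv + 1) = -k₁ := by rw [hVa]; simp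
  obtain ⟨K₂, hK₂⟩ : ∃ K₂ : ℝ, K₂ = max (max K₁ (v₁ + 1)) (max Rw (2 * a + k₁ + 4)) := ⟨_, rfl⟩
  have hKa : K₁ ≤ K₂ := by rw [hK₂]; exact (le_max_left _ _).trans (le_max_left _ _)
  have hKb : v₁ + 1 ≤ K₂ := by rw [hK₂]; exact (le_max_right _ _).trans (le_max_left _ _)
  have hKe : Rw ≤ K₂ := by rw [hK₂]; exact (le_max_left _ _).trans (le_max_right _ _)
  have hKf : 2 * a + k₁ + 4 ≤ K₂ := by
    rw [hK₂]
    exact (le_max_right _ _).trans (le_max_right _ _)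
  have hVaK : ∀ k < Nv + 2, -K₂ ≤ Va k ∧ Va k ≤ K₂ := by
    intro k hk
    rcases Nat.lt_or_ge k Nv with h1 | h1
    · rw [v0 k h1]
      obtain ⟨h2, h3⟩ := hVv k h1
      exact ⟨by linarith, by linarith⟩
    · obtain ⟨j, rfl⟩ : ∃ j, k = Nv + j := ⟨k - Nv, by omega⟩
      have hj : j < 2 := by omega
      interval_cases j
      · rw [Nat.add_zero, v1]
        exact ⟨by linarith, by linarith⟩
      · rw [v2]
        exact ⟨by linarith, by linarith⟩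
  refine ⟨K₂, Nv + 2, Va, ns, vs, hVaK, fun j hj => ?_, fun K' hK' => ?_⟩
  · obtain ⟨h2, h3⟩ := hvs j hj
    exact ⟨by linarith, h3⟩
  obtain ⟨ε₀, hε₀, hV⟩ := hV K' (hKa.trans hK')
  refine ⟨min ε₀ (min (X / 16) (min (hh / C₁) (hh / (6 * C)))), by positivity,
    fun ε hε hεε => ?_⟩
  have hεa := hεε.trans (min_le_left _ _)
  have hεc := hεε.trans ((min_le_right _ _).trans (min_le_left _ _))
  have hεd := hεε.trans ((min_le_right _ _).trans ((min_le_right _ _).trans (min_le_left _ _)))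
  have hεe := hεε.trans ((min_le_right _ _).trans ((min_le_right _ _).trans (min_le_right _ _)))
  rw [le_div_iff₀ (by positivity)] at hεd hεe
  intro S g₀ P θ P₂ θ₂ Eb e₂ c Pt rt L T G g hG hg hder hZ
  obtain ⟨p, M, B₀, B₁, hB, hV⟩ := hV ε hε hεa S g₀ P θ P₂ θ₂ Eb e₂ c Pt rt L T G g hG hg hder hZ
  refine ⟨p, M, B₀, B₁, hB, fun k₀ hk₀ => ?_⟩
  obtain ⟨q₁, hq₁, hV⟩ := hV k₀ hk₀
  refine ⟨q₁, hq₁, fun q t x hq hx N A V N' V' Rc hpr hwn N₁ N₂ vw hN1 hN12 hN2 hvw => ?_⟩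
  have hq0 := Rc.q0
  obtain ⟨S', Θ, w, K₄, hne, hsub, hwt, hK₄, hΘs, hΘd, hΘe, hbl, hVf⟩ := hV q t x hq hx N A V N' V'
    Rc (fun k hk => by
      obtain ⟨j, hj, h4, h5⟩ := hpr k (by omega)
      rw [Pool.PKG.cmb_l hk] at h4 h5
      exact ⟨j, hj, h4, h5⟩) (fun k hk => by
      obtain ⟨j, hj, h4⟩ := hwn k (by omega)
      rw [v0 k hk] at h4
      exact ⟨j, hj, h4⟩) N₁ N₂ vw hN1 hN12 hN2 hvw
  have R' := Rc.sub hne hsub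
  have hlog : 10 * (C * hh) < X := by
    have h1 : hh * (20 * C) = 2 * (10 * (C * hh)) := by ring
    have h2 : 0 < C * hh := mul_pos hC0 hhh
    linarith only [h1, h2, hhl3]
  -- the slopes
  have hSl := Pool.W.ALT.slN_recU (Θ := Θ) (k₁ := k₁) (vw := vw) (y := y) (a := a) (Eb' := Eb (r + 1))
    (ε' := 3 * ε * q) (Rg := fun l => κ l = .one ∨ κ l = .thin) (N₁ := N₁) (Dw := Dw)
    (Dr := max Dr₀ (max Db Kd)) (Kd := Kd) R' hN2 hDw3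
    (hDb1.trans ((le_max_left _ _).trans (le_max_right _ _)))
    ((le_max_right _ _).trans (le_max_right _ _)) hs.le
    (by linarith) hhh hC hlog hε.le (by linarith) hwt hΘd hΘs (fun v hv => by
      rcases hv with rfl | rfl
      · obtain ⟨k, hk, e⟩ := hb0
        have := Pool.ALT.BlB.deg hDb1 hDb1 (hbl k hk)
        rwa [e] at this
      · obtain ⟨k, hk, e⟩ := hb1
        have := Pool.ALT.BlB.deg hDb1 hDb1 (hbl k hk)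
        rwa [e] at this) hK₄ hΘe
  -- the closed labels of `N`
  obtain ⟨K₅, hK₅, hHn⟩ := hhn R' (by omega) hκ (Or.inl hκu) hκt (y := y) (a := a) (v₁ := v₁)
    (au := Rw) (k₁ := k₁) (hh := hh) (X := X) (w := w) (vw := vw) (Θ := Θ) (D' := Db)
    (max Dr₀ (max Db Kd)) N₁ N₂ hN1 hN2 hy hya hsa hk2 (by linarith only [hKf, hK']) hv₁0
    (by linarith only [hKb, hK']) hRw1 (by linarith only [hKe, hK']) hRw2 hv₁1 (by
      obtain ⟨j, hj, h4, h5⟩ := hpr (Nr + 0) (by omega)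
      rw [Pool.PKG.cmb_r] at h4 h5
      exact ⟨j, hj, h4.trans ap0, h5.trans vp0⟩) (by
      obtain ⟨j, hj, h4, h5⟩ := hpr (Nr + 3) (by omega)
      rw [Pool.PKG.cmb_r] at h4 h5
      exact ⟨j, hj, h4.trans ap3, h5.trans vp3⟩) (by
      obtain ⟨j, hj, h4, h5⟩ := hpr (Nr + 4) (by omega)
      rw [Pool.PKG.cmb_r] at h4 h5
      exact ⟨j, hj, h4.trans ap4, h5.trans vp4⟩) hhh hε.le (by linarith only [hεd])
    (by linarith only [hhl4]) (by linarith only [hhl4, hXc]) hDb5 (by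
      obtain ⟨k, hk, e⟩ := hbv
      have := hbl k hk
      rwa [e] at this) hΘs
  -- the four windows
  have hRf := R'.recNy (y := y) (a := a) (k₁ := k₁) (vw := fun _ => 0) (N₁ := 1) (N₂ := 3)
    (Rg := fun l => κ l = .one ∨ κ l = .thin) (by omega) hκ (by rw [hκu]; exact fun h => nomatch h)
    hκt (fun l _ h => h) (fun l hl => Or.inl (hκ l hl)) (fun h => h.symm) le_rfl (by omega) le_rfl
    hy hya hsa hS₂ (fun k hk => by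
      interval_cases k
      · obtain ⟨j, hj, h4, h5⟩ := hpr (Nr + 0) (by omega)
        rw [Pool.PKG.cmb_r] at h4 h5
        exact ⟨j, hj, h4.trans ap0, by rw [h5, vp0]; norm_num [Pool.V1E.vG]⟩
      · obtain ⟨j, hj, h4, h5⟩ := hpr (Nr + 1) (by omega)
        rw [Pool.PKG.cmb_r] at h4 h5
        exact ⟨j, hj, h4.trans ap1, by rw [h5, vp1]; norm_num [Pool.V1E.vG]⟩)
    (fun k hk hk' => by
      obtain rfl | rfl : k = 2 ∨ k = 3 := by omega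
      · obtain ⟨j, hj, h4⟩ := hwn (Nv + 1) (by omega)
        exact ⟨j, hj, by rw [h4, v2]; norm_num [Pool.V1E.vG]⟩
      · obtain ⟨j, hj, h4⟩ := hwn Nv (by omega)
        exact ⟨j, hj, by rw [h4, v1]; norm_num [Pool.V1E.vG]⟩)
    (by
      obtain ⟨j, hj, h4, h5⟩ := hpr (Nr + 2) (by omega)
      rw [Pool.PKG.cmb_r] at h4 h5
      exact ⟨j, hj, h4.trans ap2, h5.trans vp2⟩) hε.le
    (by linarith only [hεc, hXc]) (fun k hk hk' => by omega) (fun k hk hk' => by omega) hk2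
    (by linarith only [hKf, hK'])
  -- the closed gradient
  have hXs : ∀ (J : ℕ) (F : Pool.KA.Fam (r + 2) J) (B B' : F.Ω → Prop) (g₀ : ℕ → ℕ → ℕ)
      (G : ℕ → Pool.GEN.PtT F → ℕ → MvPolynomial (Option (Fin (r + 2))) ℝ)
      (H : ℕ → Pool.GEN.LnT F → ℕ → MvPolynomial (Option (Fin (r + 2))) ℝ)
      (Ht : ℕ → Pool.GEN.LnT F → MvPolynomial (Option (Fin (r + 2))) ℝ)
      (CL : Pool.GEN.LnT F → MvPolynomial (Option (Fin (r + 2))) ℝ)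
      (Cp : Pool.GEN.PtT F → MvPolynomial (Option (Fin (r + 2))) ℝ), Pool.K2S.Sub B' B →
      Pool.ALT.XiF Θ w J F B g₀ G H Ht CL Cp → Pool.ALT.XiF Θ w J F B' g₀ G H Ht CL Cp := by
    rintro J F B B' g₀ G H Ht CL Cp hBB ⟨V, C', z, z', G₁, G₂, cc, h1, h2⟩
    exact ⟨V, C', z, z', G₁, G₂, cc, hΘs _ _ _ _ _ _ _ _ _ _ _ hBB h1, fun ω hω => h2 ω (hBB ω hω)⟩
  refine ⟨S', fun J F B g₀ G H Ht CL Cp => Pool.ALT.XiF Θ w J F B g₀ G H Ht CL Cp ∧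
    Pool.V1E.XiCl c r Dw CT (X * q) (Sl (r + 1) * q) (fun k => t + Pool.V1E.vG y k₁ vw k * q)
      (fun k l => Pool.ISO.lvN P c (r + 1) (L (r + 1)) l (t + Pool.V1E.vG y k₁ vw k * q) (t + Pool.V1E.vG y k₁ vw k * q))
      J F B g₀ G H Ht CL Cp, hsub, R', fun J F B g₀ G H Ht CL Cp h => h.2,
    ⟨1 / (4 * K₄), 8 * K₄ * K₅, by positivity, by positivity, ?_⟩, fun κ' qf Pq h1 h2 h3 h4 => ?_⟩
  · exact hCT hRf N₁ N₂ hN1 hN2 (by linarith only [hab, hs]) hs hC hhh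
      (by
        have h1 : ε * (6 * C) = 2 * (3 * C * ε) := by ring
        have h2 : 0 < 3 * C * ε := by positivity
        linarith only [h1, h2, hεe]) hlog hXc4 (hDb1.trans hDw2) (hDb5.trans hDw2) hXs
      (by positivity) (by positivity : (0 : ℝ) ≤ 1 / (4 * K₄) * (8 * K₄))
      le_rfl hSl (hHn (1 / (4 * K₄) * (8 * K₄)))
  · obtain ⟨K₂, hK, hv⟩ := hVf κ' qf Pq h1 h2 h3 h4
    exact ⟨K₂, hK, hv.xi fun J F B g₀ G H Ht CL Cp h => h.1⟩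

end Pool.W.ALT
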